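import Pool.Agent.H83.VC.Pack
set_option autoImplicit false

/-! Boxes in `ℤ^m`: points in cosets of subgroups of small rank, VC-dimension, doubling. -/

namespace Pool.Agent.H83.VC

open Finset
open scoped Pointwise

/-- the box `{0, ..., N-1}^m` -/
noncomputable def box (m N : ℕ) : Finset (Fin m → ℤ) := Fintype.piFinset fun _ => Finset.Ico 0 (N : ℤ)

theorem mem_box {m N : ℕ} {x : Fin m → ℤ} : x ∈ box m N ↔ ∀ i, 0 ≤ x i ∧ x i < N := by
  simp [box, Fintype.mem_piFinset]

theorem card_box (m N : ℕ) : (box m N).card = N ^ m := by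
  simp [box]

/-- a homomorphism `ℤ^r → ℤ^m` and coordinates which determine its values -/
theorem exists_coordinates {m r : ℕ} (ψ : (Fin r → ℤ) →+ (Fin m → ℤ)) :
    ∃ I : Finset (Fin m), I.card ≤ r ∧ ∀ c, (∀ i ∈ I, ψ c i = 0) → ψ c = 0 := by
  classical
  obtain ⟨v, hv⟩ : ∃ v : Fin m → (Fin r → ℚ), ∀ j k, v j k = (ψ (Pi.single k 1) j : ℚ) :=
    ⟨fun j k => (ψ (Pi.single k 1) j : ℚ), fun _ _ => rfl⟩
  have hψ : ∀ c j, ((ψ c j : ℤ) : ℚ) = ∑ k, (c k : ℚ) * v j k := by
    intro c j
    have h1 : c = ∑ k, c k • (Pi.single k (1 : ℤ) : Fin r → ℤ) := by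
      ext i
      simp [Finset.sum_apply, Pi.single_apply]
    conv_lhs => rw [h1]
    rw [map_sum, Finset.sum_apply]
    push_cast
    apply sum_congr rfl
    intro k _
    rw [map_zsmul, Pi.smul_apply, hv]
    simp
  obtain ⟨κ, a, ha, hspan, hli⟩ := exists_linearIndependent' ℚ v
  have : Finite κ := Finite.of_injective a ha
  have : Fintype κ := Fintype.ofFinite κ
  have hκ : Fintype.card κ ≤ r := by
    have := hli.fintype_card_le_finrank
    simpa using this
  refine ⟨univ.image a, card_image_le.trans (by simpa using hκ), ?_⟩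
  intro c hc
  -- the linear functional `w ↦ ∑ c_k w_k` vanishes on the span
  let ℓ : (Fin r → ℚ) →ₗ[ℚ] ℚ := ∑ k, (c k : ℚ) • LinearMap.proj k
  have hℓ : ∀ w, ℓ w = ∑ k, (c k : ℚ) * w k := by
    intro w
    simp [ℓ, LinearMap.sum_apply]
  have h1 : Submodule.span ℚ (Set.range (v ∘ a)) ≤ LinearMap.ker ℓ := by
    rw [Submodule.span_le]
    rintro _ ⟨k, rfl⟩
    simp only [SetLike.mem_coe, LinearMap.mem_ker, Function.comp]
    rw [hℓ, ← hψ, hc (a k) (mem_image_of_mem _ (mem_univ k))]
    simp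
  rw [hspan] at h1
  ext j
  have h2 : v j ∈ LinearMap.ker ℓ := h1 (Submodule.subset_span ⟨j, rfl⟩)
  rw [LinearMap.mem_ker, hℓ, ← hψ] at h2
  simpa using h2

theorem finite_subgroup_trivial {m : ℕ} (H : AddSubgroup (Fin m → ℤ)) (hH : Finite H)
    {h : Fin m → ℤ} (hh : h ∈ H) : h = 0 := by
  by_contra hne
  have hinf : Infinite H := by
    apply Infinite.of_injective (fun n : ℕ => (⟨n • h, H.nsmul_mem hh n⟩ : H))
    intro a b hab
    simp only [Subtype.mk.injEq] at hab
    obtain ⟨i, hi⟩ := Function.ne_iff.1 hne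
    have := congrFun hab i
    simp only [Pi.smul_apply, nsmul_eq_mul, Pi.zero_apply] at this hi
    have h2 := mul_right_cancel₀ hi this
    exact_mod_cast h2
  exact not_finite H

/-- A translate of a coset progression of rank `r` contains at most `N ^ r` points of a box. -/
theorem card_le_of_coset {m r N : ℕ} (hN : 1 ≤ N) (ψ : (Fin r → ℤ) →+ (Fin m → ℤ))
    (H : AddSubgroup (Fin m → ℤ)) (hH : Finite H) (t : Fin m → ℤ) (S : Finset (Fin m → ℤ))
    (hSbox : S ⊆ box m N) (hS : ∀ x ∈ S, ∃ c : Fin r → ℤ, ∃ h ∈ H, x = t + ψ c + h) :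
    S.card ≤ N ^ r := by
  classical
  obtain ⟨I, hI, hIψ⟩ := exists_coordinates ψ
  have hinj : S.card ≤ (Fintype.piFinset fun _ : I => Finset.Ico (0 : ℤ) N).card := by
    apply card_le_card_of_injOn (fun x => fun i : I => x i)
    · intro x hx
      rw [mem_coe, Fintype.mem_piFinset]
      intro i
      rw [Finset.mem_Ico]
      exact mem_box.1 (hSbox hx) i
    · intro x hx y hy hxy
      obtain ⟨c, h, hh, hxc⟩ := hS x hx
      obtain ⟨c', h', hh', hyc⟩ := hS y hy
      rw [finite_subgroup_trivial H hH hh, add_zero] at hxc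
      rw [finite_subgroup_trivial H hH hh', add_zero] at hyc
      have h1 : x - y = ψ (c - c') := by rw [hxc, hyc, map_sub]; abel
      have h2 : ψ (c - c') = 0 := by
        apply hIψ
        intro i hi
        rw [← h1]
        have := congrFun hxy ⟨i, hi⟩
        simp only at this
        simp [this]
      rw [h2] at h1
      exact sub_eq_zero.1 h1
  rw [Fintype.card_piFinset] at hinj
  simp only [Int.card_Ico, sub_zero, Int.toNat_natCast, prod_const, card_univ,
    Fintype.card_coe] at hinj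
  exact hinj.trans (Nat.pow_le_pow_right hN hI)

/-- the covering number of a subset of a box by coset progressions of rank `r` -/
theorem card_le_of_cover {m r N : ℕ} (hN : 1 ≤ N) (ψ : (Fin r → ℤ) →+ (Fin m → ℤ))
    (H : AddSubgroup (Fin m → ℤ)) (hH : Finite H) (W : Finset (Fin m → ℤ))
    (A : Finset (Fin m → ℤ)) (hA : A ⊆ box m N)
    (hcov : ∀ a ∈ A, ∃ t ∈ W, ∃ c : Fin r → ℤ, ∃ h ∈ H, a = t + ψ c + h) :
    A.card ≤ W.card * N ^ r := by
  classical
  have h1 : A ⊆ W.biUnion fun t => A.filter fun a => ∃ c : Fin r → ℤ, ∃ h ∈ H, a = t + ψ c + h := by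
    intro a ha
    obtain ⟨t, ht, c, h, hh, e⟩ := hcov a ha
    rw [mem_biUnion]
    exact ⟨t, ht, by rw [mem_filter]; exact ⟨ha, c, h, hh, e⟩⟩
  calc A.card ≤ _ := card_le_card h1
    _ ≤ ∑ t ∈ W, (A.filter fun a => ∃ c : Fin r → ℤ, ∃ h ∈ H, a = t + ψ c + h).card :=
        card_biUnion_le
    _ ≤ ∑ _t ∈ W, N ^ r := by
        apply sum_le_sum
        intro t _
        apply card_le_of_coset hN ψ H hH t
        · exact (filter_subset _ _).trans hA
        · intro x hx
          exact (mem_filter.1 hx).2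
    _ = _ := by rw [sum_const, smul_eq_mul]

/-- the doubling of a subset of a box -/
theorem card_add_self_le {m N : ℕ} (A : Finset (Fin m → ℤ)) (hA : A ⊆ box m N) :
    (A + A).card ≤ 2 ^ m * N ^ m := by
  have h1 : A + A ⊆ box m (2 * N) := by
    intro z hz
    obtain ⟨x, hx, y, hy, rfl⟩ := mem_add.1 hz
    rw [mem_box]
    intro i
    have h2 := mem_box.1 (hA hx) i
    have h3 := mem_box.1 (hA hy) i
    simp only [Pi.add_apply]
    push_cast
    omega
  calc (A + A).card ≤ _ := card_le_card h1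
    _ = _ := by rw [card_box, mul_pow]

/-- The translates of a box in `ℤ^m` shatter no set with more than `2 m` elements. -/
theorem vcLe_box (m N : ℕ) : VCLe (box m N) (2 * m) := by
  classical
  intro Y hY
  rcases Y.eq_empty_or_nonempty with rfl | hne
  · simp
  have h1 : ∀ i : Fin m, ∃ a ∈ Y, ∀ y ∈ Y, y i ≤ a i := fun i => exists_max_image Y (fun y => y i) hne
  have h2 : ∀ i : Fin m, ∃ b ∈ Y, ∀ y ∈ Y, b i ≤ y i := fun i => exists_min_image Y (fun y => y i) hne
  choose a haY ha using h1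
  choose b hbY hb using h2
  obtain ⟨x, hx⟩ := hY (univ.image a ∪ univ.image b) (by
    intro z hz
    rw [mem_union, mem_image, mem_image] at hz
    rcases hz with ⟨i, _, rfl⟩ | ⟨i, _, rfl⟩
    · exact haY i
    · exact hbY i)
  have h3 : Y ⊆ univ.image a ∪ univ.image b := by
    intro y hy
    rw [← hx y hy, mem_box]
    intro i
    have h4 := mem_box.1 ((hx _ (haY i)).2 (mem_union_left _ (mem_image_of_mem _ (mem_univ i)))) i
    have h5 := mem_box.1 ((hx _ (hbY i)).2 (mem_union_right _ (mem_image_of_mem _ (mem_univ i)))) i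
    have h6 := ha i y hy
    have h7 := hb i y hy
    simp only [Pi.sub_apply] at h4 h5 ⊢
    omega
  calc Y.card ≤ _ := card_le_card h3
    _ ≤ _ := card_union_le _ _
    _ ≤ m + m := by
        apply Nat.add_le_add
        · exact card_image_le.trans (by simp)
        · exact card_image_le.trans (by simp)
    _ = 2 * m := by ring

end Pool.Agent.H83.VC
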