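import Mathlib
set_option autoImplicit false

/-! Packing translates of a finite set of bounded VC-dimension. -/

namespace Pool.Agent.H83.VC

open Finset
open scoped Pointwise symmDiff

/-- The finite set `Y` is shattered by the translates of the set `A`: every subset of `Y` is the
intersection of `Y` with a translate `x + A`. -/
def Shattered {Γ : Type*} [AddCommGroup Γ] (A Y : Finset Γ) : Prop :=
  ∀ Z ⊆ Y, ∃ x : Γ, ∀ y ∈ Y, y - x ∈ A ↔ y ∈ Z

/-- The family of all translates of `A` has VC-dimension at most `d`. -/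
def VCLe {Γ : Type*} [AddCommGroup Γ] (A : Finset Γ) (d : ℕ) : Prop :=
  ∀ Y : Finset Γ, Shattered A Y → Y.card ≤ d

section abstractpart

variable {α ι : Type*} [DecidableEq α] [DecidableEq ι]

/-- the number of subsets with at most `d` elements -/
theorem card_small_subsets (S : Finset α) (d : ℕ) :
    (S.powerset.filter fun t => t.card ≤ d).card ≤ (S.card + 1) ^ d := by
  induction d with
  | zero =>
    have : (S.powerset.filter fun t => t.card ≤ 0) ⊆ {∅} := by
      intro t ht
      simp only [mem_filter, mem_powerset, Nat.le_zero, card_eq_zero] at ht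
      simp [ht.2]
    simpa using card_le_card this
  | succ d ih =>
    have hsub : (S.powerset.filter fun t => t.card ≤ d + 1) ⊆
        ((insertNone S) ×ˢ (S.powerset.filter fun t => t.card ≤ d)).image
          (fun p => p.1.toFinset ∪ p.2) := by
      intro t ht
      simp only [mem_filter, mem_powerset] at ht
      rw [mem_image]
      by_cases h : t.card ≤ d
      · exact ⟨(none, t), by simp [ht.1, h], by simp⟩
      · have h1 : 0 < t.card := by omega
        obtain ⟨a, ha⟩ := card_pos.1 h1
        refine ⟨(some a, t.erase a), ?_, ?_⟩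
        · simp only [mem_product, mem_filter, mem_powerset]
          refine ⟨by simpa using ht.1 ha, (erase_subset _ _).trans ht.1, ?_⟩
          rw [card_erase_of_mem ha]; omega
        · simp only [Option.toFinset_some]
          ext x
          simp only [mem_union, mem_singleton, mem_erase]
          by_cases hx : x = a
          · simp [hx, ha]
          · simp [hx]
    calc _ ≤ _ := card_le_card hsub
      _ ≤ _ := card_image_le
      _ = (S.card + 1) * (S.powerset.filter fun t => t.card ≤ d).card := by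
          rw [card_product, card_insertNone]
      _ ≤ (S.card + 1) * (S.card + 1) ^ d := Nat.mul_le_mul_left _ ih
      _ = _ := by rw [pow_succ]; ring

/-- Random sampling: if a family of finite subsets of `G` is well separated, its members are
distinguished by few points. -/
theorem exists_sample (T : Finset ι) (F : ι → Finset α) (G : Finset α) (s m : ℕ)
    (hsub : ∀ x ∈ T, F x ⊆ G)
    (hsep : ∀ x ∈ T, ∀ y ∈ T, x ≠ y → s ≤ (F x ∆ F y).card)
    (h : T.card ^ 2 * (G.card - s) ^ m < G.card ^ m) :
    ∃ S : Finset α, S.card ≤ m ∧ ∀ x ∈ T, ∀ y ∈ T, F x ∩ S = F y ∩ S → x = y := by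
  by_contra hcon
  push Not at hcon
  have hsubset : (Fintype.piFinset fun _ : Fin m => G) ⊆
      ((T ×ˢ T).filter fun p => p.1 ≠ p.2).biUnion
        (fun p => Fintype.piFinset fun _ : Fin m => G \ (F p.1 ∆ F p.2)) := by
    intro f hf
    rw [Fintype.mem_piFinset] at hf
    obtain ⟨x, hx, y, hy, hxy, hne⟩ := hcon (univ.image f)
      (card_image_le.trans (by simp))
    rw [mem_biUnion]
    refine ⟨(x, y), by simp [hx, hy, hne], ?_⟩
    rw [Fintype.mem_piFinset]
    intro i
    rw [mem_sdiff]
    refine ⟨hf i, ?_⟩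
    rw [mem_symmDiff]
    have hi : f i ∈ univ.image f := mem_image_of_mem _ (mem_univ i)
    have h1 : f i ∈ F x ↔ f i ∈ F y := by
      have := congrArg (fun U => f i ∈ U) hxy
      simpa [mem_inter, hi] using this
    tauto
  have hcard := (card_le_card hsubset).trans card_biUnion_le
  rw [Fintype.card_piFinset_const] at hcard
  have h2 : ∑ p ∈ (T ×ˢ T).filter (fun p => p.1 ≠ p.2),
      (Fintype.piFinset fun _ : Fin m => G \ (F p.1 ∆ F p.2)).card ≤
      T.card ^ 2 * (G.card - s) ^ m := by
    calc _ ≤ ∑ p ∈ (T ×ˢ T).filter (fun p => p.1 ≠ p.2), (G.card - s) ^ m := by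
          apply sum_le_sum
          rintro ⟨x, y⟩ hp
          simp only [mem_filter, mem_product] at hp
          rw [Fintype.card_piFinset_const]
          apply Nat.pow_le_pow_left
          have h3 : (G \ (F x ∆ F y)).card = G.card - (F x ∆ F y).card := by
            apply card_sdiff_of_subset
            intro z hz
            rw [mem_symmDiff] at hz
            rcases hz with hz | hz
            · exact hsub x hp.1.1 hz.1
            · exact hsub y hp.1.2 hz.1
          have h4 := hsep x hp.1.1 y hp.1.2 hp.2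
          show (G \ (F x ∆ F y)).card ≤ _
          omega
      _ = ((T ×ˢ T).filter (fun p => p.1 ≠ p.2)).card * (G.card - s) ^ m := by
          rw [sum_const, smul_eq_mul]
      _ ≤ T.card ^ 2 * (G.card - s) ^ m := by
          apply Nat.mul_le_mul_right
          refine (card_filter_le _ _).trans ?_
          rw [card_product, sq]
  omega

omit [DecidableEq ι] in
/-- A separated family of VC-dimension at most `d` which is distinguished by `m` points has at most
`(m + 1) ^ d` members (Sauer-Shelah). -/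
theorem card_le_of_sample (T : Finset ι) (F : ι → Finset α) (d m : ℕ) (S : Finset α)
    (hS : S.card ≤ m) (hinj : ∀ x ∈ T, ∀ y ∈ T, F x ∩ S = F y ∩ S → x = y)
    (hvc : ∀ Y : Finset α, (∀ Z ⊆ Y, ∃ x ∈ T, F x ∩ Y = Z) → Y.card ≤ d) :
    T.card ≤ (m + 1) ^ d := by
  obtain ⟨𝒜, h𝒜⟩ : ∃ 𝒜, 𝒜 = T.image (fun x => F x ∩ S) := ⟨_, rfl⟩
  have h1 : T.card = 𝒜.card := by
    rw [h𝒜, card_image_of_injOn]
    intro x hx y hy hxy
    exact hinj x hx y hy hxy
  have h2 : 𝒜.shatterer ⊆ S.powerset.filter fun t => t.card ≤ d := by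
    intro t ht
    rw [mem_shatterer] at ht
    have htS : t ⊆ S := by
      obtain ⟨u, hu, hut⟩ := ht.exists_superset
      rw [h𝒜, mem_image] at hu
      obtain ⟨x, hx, rfl⟩ := hu
      exact hut.trans inter_subset_right
    rw [mem_filter, mem_powerset]
    refine ⟨htS, hvc t ?_⟩
    intro Z hZ
    obtain ⟨u, hu, hut⟩ := ht hZ
    rw [h𝒜, mem_image] at hu
    obtain ⟨x, hx, rfl⟩ := hu
    refine ⟨x, hx, ?_⟩
    rw [← hut]
    ext z
    simp only [mem_inter]
    constructor
    · rintro ⟨h3, h4⟩; exact ⟨h4, h3, htS h4⟩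
    · rintro ⟨h3, h4, h5⟩; exact ⟨h4, h3⟩
  calc T.card = 𝒜.card := h1
    _ ≤ 𝒜.shatterer.card := card_le_card_shatterer 𝒜
    _ ≤ _ := card_le_card h2
    _ ≤ (S.card + 1) ^ d := card_small_subsets S d
    _ ≤ _ := Nat.pow_le_pow_left (by omega) d

/-- the elementary inequality behind the packing lemma -/
theorem solve_packing {N lam : ℝ} {d : ℕ} (hN : 1 ≤ N) (hlam : 0 ≤ lam)
    (h : N ≤ (2 * lam * Real.log N + 2) ^ d) : N ≤ (4 * d * lam + 2) ^ (2 * d) := by
  rcases Nat.eq_zero_or_pos d with rfl | hd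
  · simpa using h
  have hd1 : (1 : ℝ) ≤ d := by exact_mod_cast hd
  have hd0 : (0 : ℝ) < d := by linarith
  obtain ⟨u, hu⟩ : ∃ u : ℝ, u = N ^ (1 / (2 * d : ℝ)) := ⟨_, rfl⟩
  have hu1 : 1 ≤ u := by rw [hu]; exact Real.one_le_rpow hN (by positivity)
  have huN : u ^ (2 * d) = N := by
    rw [hu, ← Real.rpow_natCast, ← Real.rpow_mul (by linarith)]
    push_cast
    rw [one_div, inv_mul_cancel₀ (by positivity), Real.rpow_one]
  have hlog : Real.log N ≤ 2 * d * u := by
    rw [← huN, Real.log_pow]
    push_cast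
    apply mul_le_mul_of_nonneg_left _ (by positivity)
    have := Real.log_le_sub_one_of_pos (show 0 < u by linarith)
    linarith
  have h1 : 2 * lam * Real.log N + 2 ≤ u * (4 * d * lam + 2) := by
    have h2 : 2 * lam * Real.log N ≤ 2 * lam * (2 * d * u) :=
      mul_le_mul_of_nonneg_left hlog (by positivity)
    nlinarith
  have hlogN : 0 ≤ Real.log N := Real.log_nonneg hN
  have h3 : u ^ (2 * d) ≤ (u * (4 * d * lam + 2)) ^ d := by
    rw [huN]
    exact h.trans (pow_le_pow_left₀ (by positivity) h1 d)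
  have h4 : u ^ d ≤ (4 * d * lam + 2) ^ d := by
    rw [mul_pow, two_mul, pow_add] at h3
    exact le_of_mul_le_mul_left h3 (by positivity)
  calc N = (u ^ d) ^ 2 := by rw [← huN, ← pow_mul]; ring_nf
    _ ≤ ((4 * d * lam + 2) ^ d) ^ 2 := pow_le_pow_left₀ (by positivity) h4 2
    _ = _ := by rw [← pow_mul]; ring_nf

/-- **Packing lemma**: a family of subsets of `G` whose members differ pairwise in at least `s`
elements and which shatters no set with more than `d` elements has at most
`(4 d |G| / s + 2) ^ (2 d)` members. -/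
theorem packing (T : Finset ι) (F : ι → Finset α) (G : Finset α) (d : ℕ) (s : ℕ) (hs : 0 < s)
    (hsub : ∀ x ∈ T, F x ⊆ G)
    (hsep : ∀ x ∈ T, ∀ y ∈ T, x ≠ y → s ≤ (F x ∆ F y).card)
    (hvc : ∀ Y : Finset α, (∀ Z ⊆ Y, ∃ x ∈ T, F x ∩ Y = Z) → Y.card ≤ d) :
    (T.card : ℝ) ≤ (4 * d * (G.card / s) + 2) ^ (2 * d) := by
  have hs' : (0 : ℝ) < s := by exact_mod_cast hs
  have hlam : (0 : ℝ) ≤ (G.card : ℝ) / s := by positivity
  by_cases hT : T.card ≤ 1
  · have h1 : (T.card : ℝ) ≤ 1 := by exact_mod_cast hT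
    refine h1.trans (one_le_pow₀ ?_)
    have : (0 : ℝ) ≤ 4 * d * ((G.card : ℝ) / s) := by positivity
    linarith
  push Not at hT
  have hT1 : (1 : ℝ) < T.card := by exact_mod_cast hT
  -- `s ≤ |G|`
  have hsG : s ≤ G.card := by
    obtain ⟨x, hx, y, hy, hxy⟩ := one_lt_card.1 hT
    refine (hsep x hx y hy hxy).trans (card_le_card ?_)
    intro z hz
    rw [mem_symmDiff] at hz
    rcases hz with hz | hz
    · exact hsub x hx hz.1
    · exact hsub y hy hz.1
  have hG : (0 : ℝ) < G.card := by exact_mod_cast lt_of_lt_of_le hs hsG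
  have hlog : 0 < Real.log T.card := Real.log_pos hT1
  obtain ⟨m, hm⟩ : ∃ m : ℕ, m = ⌊2 * ((G.card : ℝ) / s) * Real.log T.card⌋₊ + 1 := ⟨_, rfl⟩
  have hm1 : 2 * ((G.card : ℝ) / s) * Real.log T.card < m := by
    rw [hm]; push_cast; exact Nat.lt_floor_add_one _
  have hm2 : (m : ℝ) ≤ 2 * ((G.card : ℝ) / s) * Real.log T.card + 1 := by
    rw [hm]; push_cast
    have := Nat.floor_le (show 0 ≤ 2 * ((G.card : ℝ) / s) * Real.log T.card by positivity)
    linarith
  have hkey : (T.card : ℝ) ^ 2 * ((G.card : ℝ) - s) ^ m < (G.card : ℝ) ^ m := by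
    have h1 : (G.card : ℝ) - s = G.card * (1 - s / G.card) := by field_simp
    have h2 : (1 - (s : ℝ) / G.card) ≤ Real.exp (-(s / G.card)) := by
      have := Real.add_one_le_exp (-((s : ℝ) / G.card))
      linarith
    have h3 : 0 ≤ 1 - (s : ℝ) / G.card := by
      have : (s : ℝ) / G.card ≤ 1 := by
        rw [div_le_one hG]; exact_mod_cast hsG
      linarith
    have h4 : (1 - (s : ℝ) / G.card) ^ m ≤ Real.exp (-(m * (s / G.card))) := by
      calc _ ≤ (Real.exp (-((s : ℝ) / G.card))) ^ m := pow_le_pow_left₀ h3 h2 m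
        _ = _ := by rw [← Real.exp_nat_mul]; ring_nf
    have h5 : (T.card : ℝ) ^ 2 = Real.exp (2 * Real.log T.card) := by
      rw [two_mul, Real.exp_add, Real.exp_log (by linarith), sq]
    rw [h1, mul_pow]
    have h6 : (T.card : ℝ) ^ 2 * (1 - (s : ℝ) / G.card) ^ m < 1 := by
      calc _ ≤ Real.exp (2 * Real.log T.card) * Real.exp (-(m * (s / G.card))) := by
            rw [h5]; exact mul_le_mul_of_nonneg_left h4 (Real.exp_pos _).le
        _ = Real.exp (2 * Real.log T.card - m * (s / G.card)) := by
            rw [← Real.exp_add]; ring_nf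
        _ < 1 := by
            rw [Real.exp_lt_one_iff]
            have h7 : 2 * ((G.card : ℝ) / s) * Real.log T.card * (s / G.card) <
                m * (s / G.card) := mul_lt_mul_of_pos_right hm1 (by positivity)
            have h8 : 2 * ((G.card : ℝ) / s) * Real.log T.card * (s / G.card) =
                2 * Real.log T.card := by field_simp
            linarith
    calc (T.card : ℝ) ^ 2 * ((G.card : ℝ) ^ m * (1 - s / G.card) ^ m)
        = (G.card : ℝ) ^ m * ((T.card : ℝ) ^ 2 * (1 - s / G.card) ^ m) := by ring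
      _ < (G.card : ℝ) ^ m * 1 := mul_lt_mul_of_pos_left h6 (by positivity)
      _ = _ := mul_one _
  have hkey' : T.card ^ 2 * (G.card - s) ^ m < G.card ^ m := by
    have : ((T.card ^ 2 * (G.card - s) ^ m : ℕ) : ℝ) < ((G.card ^ m : ℕ) : ℝ) := by
      push_cast [Nat.cast_sub hsG]
      exact hkey
    exact_mod_cast this
  obtain ⟨S, hS, hinj⟩ := exists_sample T F G s m hsub hsep hkey'
  have hfin := card_le_of_sample T F d m S hS hinj hvc
  apply solve_packing hT1.le hlam
  calc (T.card : ℝ) ≤ ((m : ℝ) + 1) ^ d := by exact_mod_cast hfin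
    _ ≤ _ := pow_le_pow_left₀ (by positivity) (by linarith) d

end abstractpart

end Pool.Agent.H83.VC
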