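import Pool.Agent.H83.VC.Box
set_option autoImplicit false

/-! A counting argument: there are subsets of `{0, ..., 2^s - 1}^m` of density `2^(-m)` whose
translates shatter no set of `16 (s + 1)` elements. -/

namespace Pool.Agent.H83.VC

open Finset
open scoped Pointwise

theorem choose_step (m M q : ℕ) (hq : q + 1 ≤ M) :
    (2 ^ m * M - (q + 1)).choose (M - (q + 1)) * 2 ^ m ≤ (2 ^ m * M - q).choose (M - q) := by
  have hQ : M ≤ 2 ^ m * M := Nat.le_mul_of_pos_left _ (by positivity)
  obtain ⟨b, hb⟩ : ∃ b, M - q = b + 1 := ⟨M - q - 1, by omega⟩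
  obtain ⟨a, ha⟩ : ∃ a, 2 ^ m * M - q = a + 1 := ⟨2 ^ m * M - q - 1, by omega⟩
  have e1 : 2 ^ m * M - (q + 1) = a := by omega
  have e2 : M - (q + 1) = b := by omega
  rw [ha, hb, e1, e2]
  have h1 := Nat.add_one_mul_choose_eq a b
  have h2 : 2 ^ m * (b + 1) ≤ a + 1 := by
    have h3 : 2 ^ m * M = 2 ^ m * (b + 1) + 2 ^ m * q := by
      rw [← mul_add, ← hb]; congr 1; omega
    have h4 : q ≤ 2 ^ m * q := Nat.le_mul_of_pos_left _ (by positivity)
    omega
  have h5 : (a.choose b * 2 ^ m) * (b + 1) ≤ (a + 1).choose (b + 1) * (b + 1) := by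
    calc (a.choose b * 2 ^ m) * (b + 1) = (2 ^ m * (b + 1)) * a.choose b := by ring
      _ ≤ (a + 1) * a.choose b := Nat.mul_le_mul_right _ h2
      _ = _ := h1
  exact Nat.le_of_mul_le_mul_right h5 (by omega)

theorem choose_bound (m M q : ℕ) (hq : q ≤ M) :
    (2 ^ m * M - q).choose (M - q) * (2 ^ m) ^ q ≤ (2 ^ m * M).choose M := by
  induction q with
  | zero => simp
  | succ q ih =>
    calc (2 ^ m * M - (q + 1)).choose (M - (q + 1)) * (2 ^ m) ^ (q + 1)
        = ((2 ^ m * M - (q + 1)).choose (M - (q + 1)) * 2 ^ m) * (2 ^ m) ^ q := by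
          rw [pow_succ]; ring
      _ ≤ (2 ^ m * M - q).choose (M - q) * (2 ^ m) ^ q :=
          Nat.mul_le_mul_right _ (choose_step m M q hq)
      _ ≤ _ := ih (by omega)

theorem card_supersets {α : Type*} [DecidableEq α] (B U : Finset α) (M q m : ℕ)
    (hB : B.card = 2 ^ m * M) (hU : U ⊆ B) (hq : q ≤ U.card) :
    ((B.powersetCard M).filter (fun A => U ⊆ A)).card * (2 ^ m) ^ q ≤ (B.powersetCard M).card := by
  obtain ⟨U', hU'U, hU'⟩ := exists_subset_card_eq hq
  have h1 : ((B.powersetCard M).filter (fun A => U ⊆ A)).card ≤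
      ((B.powersetCard M).filter (fun A => U' ⊆ A)).card := by
    apply card_le_card
    intro A hA
    rw [mem_filter] at hA ⊢
    exact ⟨hA.1, hU'U.trans hA.2⟩
  rcases le_or_gt q M with hqM | hqM
  · have h2 : ((B.powersetCard M).filter (fun A => U' ⊆ A)).card ≤
        ((B \ U').powersetCard (M - q)).card := by
      apply card_le_card_of_injOn (fun A => A \ U')
      · intro A hA
        rw [mem_coe, mem_filter, mem_powersetCard] at hA
        rw [mem_coe, mem_powersetCard]
        refine ⟨sdiff_subset_sdiff hA.1.1 (subset_refl _), ?_⟩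
        rw [card_sdiff_of_subset hA.2, hA.1.2, hU']
      · intro A hA A' hA' h
        rw [mem_coe, mem_filter] at hA hA'
        have h3 : A \ U' = A' \ U' := h
        rw [← sdiff_union_of_subset hA.2, ← sdiff_union_of_subset hA'.2, h3]
    rw [card_powersetCard, card_sdiff_of_subset (hU'U.trans hU), hU', hB] at h2
    rw [card_powersetCard, hB]
    calc _ ≤ (2 ^ m * M - q).choose (M - q) * (2 ^ m) ^ q :=
          Nat.mul_le_mul_right _ (h1.trans h2)
      _ ≤ _ := choose_bound m M q hqM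
  · have h2 : (B.powersetCard M).filter (fun A => U' ⊆ A) = ∅ := by
      apply filter_eq_empty_iff.2
      intro A hA h
      rw [mem_powersetCard] at hA
      have := card_le_card h
      omega
    rw [h2, card_empty] at h1
    have : ((B.powersetCard M).filter (fun A => U ⊆ A)).card = 0 := by omega
    rw [this]; simp

theorem four_sq_le (D : ℕ) (hD : 16 ≤ D) : 4 * D ^ 2 ≤ 2 ^ (D - 1) := by
  induction D, hD using Nat.le_induction with
  | base => norm_num
  | succ D hD ih =>
    have e : D + 1 - 1 = (D - 1) + 1 := by omega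
    have e2 : 2 ^ (D - 1 + 1) = 2 ^ (D - 1) * 2 := pow_succ _ _
    rw [e, e2]
    nlinarith

/-- half of the subsets of a set with `4 e` elements have at least `2 e` elements -/
theorem card_big (e : ℕ) (he : 1 ≤ e) :
    2 ^ (4 * e - 1) ≤ ((univ : Finset (Finset (Fin (4 * e)))).filter fun Z => 2 * e ≤ Z.card).card := by
  have h1 : (univ : Finset (Finset (Fin (4 * e)))) ⊆
      (univ.filter fun Z => 2 * e ≤ Z.card) ∪
        (univ.filter fun Z : Finset (Fin (4 * e)) => 2 * e ≤ Z.card).image (fun Z => Zᶜ) := by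
    intro Z _
    rw [mem_union]
    by_cases h : 2 * e ≤ Z.card
    · left; simp [h]
    · right
      rw [mem_image]
      refine ⟨Zᶜ, ?_, compl_compl Z⟩
      rw [mem_filter]
      refine ⟨mem_univ _, ?_⟩
      rw [card_compl, Fintype.card_fin]
      omega
  have h2 := (card_le_card h1).trans (card_union_le _ _)
  have h3 := card_image_le (s := (univ.filter fun Z : Finset (Fin (4 * e)) => 2 * e ≤ Z.card))
    (f := fun Z => Zᶜ)
  rw [card_univ, Fintype.card_finset, Fintype.card_fin] at h2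
  have e1 : 4 * e = (4 * e - 1) + 1 := by omega
  have e2 : 2 ^ (4 * e) = 2 ^ (4 * e - 1) * 2 := by
    conv_lhs => rw [e1, pow_succ]
  rw [e2] at h2
  omega

/-- greedy selection of traces which use many different elements of `A` -/
theorem greedy {Γ : Type*} [AddCommGroup Γ] [DecidableEq Γ] {e : ℕ} (he : 4 ≤ e) (A : Finset Γ)
    (y : Fin (4 * e) → Γ) (hy : Function.Injective y) (x : Finset (Fin (4 * e)) → Γ)
    (hx : ∀ Z j, y j - x Z ∈ A ↔ j ∈ Z) (t : ℕ) (ht : t ≤ 4 * e) :
    ∃ 𝒵 : Finset (Finset (Fin (4 * e))), 𝒵.card = t ∧ (∀ Z ∈ 𝒵, 2 * e ≤ Z.card) ∧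
      t * e ≤ (𝒵.biUnion fun Z => Z.image fun j => y j - x Z).card := by
  have hV : ∀ Z : Finset (Fin (4 * e)), (Z.image fun j => y j - x Z).card = Z.card := by
    intro Z
    apply card_image_of_injective
    intro i j hij
    exact hy (sub_left_injective hij)
  have hxinj : Function.Injective x := by
    intro Z Z' h
    ext j
    rw [← hx Z j, ← hx Z' j, h]
  induction t with
  | zero => exact ⟨∅, by simp⟩
  | succ t ih =>
    obtain ⟨𝒵, h𝒵card, h𝒵big, h𝒵⟩ := ih (by omega)
    obtain ⟨U, hU⟩ : ∃ U, U = 𝒵.biUnion fun Z => Z.image fun j => y j - x Z := ⟨_, rfl⟩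
    have hUcard : U.card ≤ t * (4 * e) := by
      calc U.card ≤ ∑ Z ∈ 𝒵, (Z.image fun j => y j - x Z).card := by rw [hU]; exact card_biUnion_le
        _ ≤ ∑ _Z ∈ 𝒵, 4 * e := by
            apply sum_le_sum
            intro Z _
            rw [hV]
            exact (card_le_univ Z).trans (by simp)
        _ = t * (4 * e) := by rw [sum_const, smul_eq_mul, h𝒵card]
    -- there is a big set with small overlap
    have hex : ∃ Z : Finset (Fin (4 * e)), 2 * e ≤ Z.card ∧
        ((Z.image fun j => y j - x Z) ∩ U).card ≤ e := by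
      by_contra hcon
      push Not at hcon
      obtain ⟨big, hbig⟩ : ∃ big : Finset (Finset (Fin (4 * e))),
        big = univ.filter fun Z : Finset (Fin (4 * e)) => 2 * e ≤ Z.card := ⟨_, rfl⟩
      have h1 : big.card * (e + 1) ≤ U.card * (4 * e) := by
        calc big.card * (e + 1) = ∑ _Z ∈ big, (e + 1) := by rw [sum_const, smul_eq_mul]
          _ ≤ ∑ Z ∈ big, ((U ×ˢ (univ : Finset (Fin (4 * e)))).filter
                fun p => y p.2 - x Z = p.1).card := by
              apply sum_le_sum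
              intro Z hZ
              rw [hbig, mem_filter] at hZ
              have h2 := hcon Z hZ.2
              have h3 : ((Z.image fun j => y j - x Z) ∩ U) ⊆
                  ((U ×ˢ (univ : Finset (Fin (4 * e)))).filter
                    fun p => y p.2 - x Z = p.1).image Prod.fst := by
                intro u hu
                rw [mem_inter, mem_image] at hu
                obtain ⟨⟨j, _, hj⟩, huU⟩ := hu
                rw [mem_image]
                exact ⟨(u, j), by simp [huU, hj], rfl⟩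
              have h4 := (card_le_card h3).trans card_image_le
              omega
          _ = (big.sigma fun Z => (U ×ˢ (univ : Finset (Fin (4 * e)))).filter
                fun p => y p.2 - x Z = p.1).card := by rw [card_sigma]
          _ ≤ (U ×ˢ (univ : Finset (Fin (4 * e)))).card := by
              apply card_le_card_of_injOn (fun p => p.2)
              · rintro ⟨Z, p⟩ h
                simp only [coe_sigma, Set.mem_sigma_iff, mem_coe, mem_filter] at h
                rw [mem_coe]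
                exact h.2.1
              · rintro ⟨Z, p⟩ h ⟨Z', p'⟩ h' hpp
                simp only [coe_sigma, Set.mem_sigma_iff, mem_coe, mem_filter] at h h'
                simp only at hpp
                subst hpp
                have h5 : x Z = x Z' := by
                  have h6 : y p.2 - x Z = y p.2 - x Z' := by rw [h.2.2, h'.2.2]
                  exact sub_right_injective h6
                rw [hxinj h5]
          _ = U.card * (4 * e) := by rw [card_product]; simp
      have h2 : 2 ^ (4 * e - 1) ≤ big.card := by rw [hbig]; exact card_big e (by omega)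
      have h3 := four_sq_le (4 * e) (by omega)
      have h4 : 4 * (4 * e) ^ 2 * (e + 1) ≤ t * (4 * e) * (4 * e) := by
        calc 4 * (4 * e) ^ 2 * (e + 1) ≤ big.card * (e + 1) :=
              Nat.mul_le_mul_right _ (h3.trans h2)
          _ ≤ _ := h1
          _ ≤ _ := Nat.mul_le_mul_right _ hUcard
      have h5 : t * (4 * e) * (4 * e) < 4 * (4 * e) ^ 2 * (e + 1) := by
        have h6 : t < 4 * (e + 1) := by omega
        have h7 : 0 < (4 * e) ^ 2 := by positivity
        calc t * (4 * e) * (4 * e) = t * (4 * e) ^ 2 := by ring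
          _ < (4 * (e + 1)) * (4 * e) ^ 2 := Nat.mul_lt_mul_of_pos_right h6 h7
          _ = _ := by ring
      omega
    obtain ⟨Z, hZbig, hZ⟩ := hex
    have hZ𝒵 : Z ∉ 𝒵 := by
      intro h
      have h1 : (Z.image fun j => y j - x Z) ⊆ U := by
        rw [hU]
        exact subset_biUnion_of_mem (fun Z => Z.image fun j => y j - x Z) h
      rw [inter_eq_left.2 h1, hV] at hZ
      omega
    refine ⟨insert Z 𝒵, ?_, ?_, ?_⟩
    · rw [card_insert_of_notMem hZ𝒵, h𝒵card]
    · intro Z' hZ'
      rw [mem_insert] at hZ'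
      rcases hZ' with rfl | h
      · exact hZbig
      · exact h𝒵big _ h
    · rw [biUnion_insert, ← hU]
      have h1 := card_union_add_card_inter (Z.image fun j => y j - x Z) U
      rw [hV] at h1
      rw [← hU] at h𝒵
      have : (t + 1) * e = t * e + e := by ring
      omega

/-- the difference box -/
noncomputable def dbox (m N : ℕ) : Finset (Fin m → ℤ) :=
  Fintype.piFinset fun _ => Finset.Ico (-(N : ℤ)) (N : ℤ)

theorem card_dbox (m N : ℕ) : (dbox m N).card = (2 * N) ^ m := by
  have : ((N : ℤ) + N).toNat = 2 * N := by omega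
  simp [dbox, this]

theorem mem_dbox {m N : ℕ} {x : Fin m → ℤ} : x ∈ dbox m N ↔ ∀ i, -(N : ℤ) ≤ x i ∧ x i < N := by
  simp [dbox, Fintype.mem_piFinset]

/-- a set which shatters contains many elements determined by few parameters -/
theorem exists_config {m N e : ℕ} (he : 4 ≤ e) (A : Finset (Fin m → ℤ)) (hA : A ⊆ box m N)
    (Y : Finset (Fin m → ℤ)) (hY : Shattered A Y) (hYcard : 4 * e ≤ Y.card) :
    ∃ (y : Fin (4 * e) → (Fin m → ℤ))
      (g : Fin (4 * e) → Finset (Fin (4 * e)) × (Fin m → ℤ)),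
      (∀ j, y j ∈ box m N) ∧ (∀ i, (g i).2 ∈ dbox m N) ∧
      (univ.biUnion fun i => (g i).1.image fun j => y j - (g i).2) ⊆ A ∧
      4 * e * e ≤ (univ.biUnion fun i => (g i).1.image fun j => y j - (g i).2).card := by
  classical
  obtain ⟨Y', hY'Y, hY'card⟩ := exists_subset_card_eq hYcard
  have hY' : Shattered A Y' := by
    intro Z hZ
    obtain ⟨x, hx⟩ := hY Z (hZ.trans hY'Y)
    exact ⟨x, fun y hy => hx y (hY'Y hy)⟩
  obtain ⟨x₀, hx₀⟩ := hY' Y' (subset_refl _)
  obtain ⟨w, hw⟩ : ∃ w : Fin (4 * e) → (Fin m → ℤ),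
      Function.Injective w ∧ ∀ j, w j ∈ Y' := by
    refine ⟨fun j => (Y'.equivFinOfCardEq hY'card).symm j, ?_, fun j => ?_⟩
    · intro i j hij
      exact (Y'.equivFinOfCardEq hY'card).symm.injective (Subtype.ext hij)
    · exact ((Y'.equivFinOfCardEq hY'card).symm j).2
  obtain ⟨hwinj, hwmem⟩ := hw
  have hex : ∀ Z : Finset (Fin (4 * e)), ∃ x' : Fin m → ℤ, ∀ j, w j - x' ∈ A ↔ j ∈ Z := by
    intro Z
    obtain ⟨x', hx'⟩ := hY' (Z.image w) (by
      intro z hz
      obtain ⟨j, _, rfl⟩ := mem_image.1 hz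
      exact hwmem j)
    refine ⟨x', fun j => ?_⟩
    rw [hx' _ (hwmem j), mem_image]
    constructor
    · rintro ⟨i, hi, hij⟩
      rwa [← hwinj hij]
    · intro h; exact ⟨j, h, rfl⟩
  choose x' hx' using hex
  obtain ⟨y, hydef⟩ : ∃ y : Fin (4 * e) → (Fin m → ℤ), ∀ j, y j = w j - x₀ :=
    ⟨fun j => w j - x₀, fun _ => rfl⟩
  obtain ⟨x, hxdef⟩ : ∃ x : Finset (Fin (4 * e)) → (Fin m → ℤ), ∀ Z, x Z = x' Z - x₀ :=
    ⟨fun Z => x' Z - x₀, fun _ => rfl⟩
  have hyinj : Function.Injective y := by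
    intro i j hij
    rw [hydef, hydef] at hij
    exact hwinj (sub_left_injective hij)
  have hyA : ∀ j, y j ∈ A := by
    intro j
    rw [hydef]
    exact (hx₀ _ (hwmem j)).2 (hwmem j)
  have hx : ∀ Z j, y j - x Z ∈ A ↔ j ∈ Z := by
    intro Z j
    rw [hydef, hxdef]
    have : w j - x₀ - (x' Z - x₀) = w j - x' Z := by abel
    rw [this]
    exact hx' Z j
  obtain ⟨𝒵, h𝒵card, h𝒵big, h𝒵⟩ := greedy he A y hyinj x hx (4 * e) le_rfl
  obtain ⟨g, hg⟩ : ∃ g : Fin (4 * e) → Finset (Fin (4 * e)),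
      (∀ i, g i ∈ 𝒵) ∧ ∀ Z ∈ 𝒵, ∃ i, g i = Z := by
    refine ⟨fun i => (𝒵.equivFinOfCardEq h𝒵card).symm i, fun i => ?_, fun Z hZ => ?_⟩
    · exact ((𝒵.equivFinOfCardEq h𝒵card).symm i).2
    · exact ⟨𝒵.equivFinOfCardEq h𝒵card ⟨Z, hZ⟩, by simp⟩
  obtain ⟨hgmem, hgsurj⟩ := hg
  have hunion : (univ.biUnion fun i => (g i).image fun j => y j - x (g i)) =
      𝒵.biUnion fun Z => Z.image fun j => y j - x Z := by
    ext z
    simp only [mem_biUnion, mem_univ, true_and]
    constructor
    · rintro ⟨i, hi⟩; exact ⟨g i, hgmem i, hi⟩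
    · rintro ⟨Z, hZ, hz⟩
      obtain ⟨i, rfl⟩ := hgsurj Z hZ
      exact ⟨i, hz⟩
  refine ⟨y, fun i => (g i, x (g i)), fun j => hA (hyA j), ?_, ?_, ?_⟩
  · intro i
    have h1 := h𝒵big _ (hgmem i)
    obtain ⟨j, hj⟩ := card_pos.1 (show 0 < (g i).card by omega)
    have h2 := mem_box.1 (hA ((hx (g i) j).2 hj))
    have h3 := mem_box.1 (hA (hyA j))
    show x (g i) ∈ dbox m N
    rw [mem_dbox]
    intro k
    have h4 := h2 k
    have h5 := h3 k
    simp only [Pi.sub_apply] at h4
    omega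
  · show (univ.biUnion fun i => (g i).image fun j => y j - x (g i)) ⊆ A
    intro z hz
    rw [mem_biUnion] at hz
    obtain ⟨i, _, hz⟩ := hz
    obtain ⟨j, hj, rfl⟩ := mem_image.1 hz
    exact (hx (g i) j).2 hj
  · show 4 * e * e ≤ (univ.biUnion fun i => (g i).image fun j => y j - x (g i)).card
    rw [hunion]
    exact h𝒵

/-- **Existence** of sets of density `2 ^ (-m)` in `{0, ..., 2 ^ s - 1} ^ m` of VC-dimension less
than `16 (s + 1)`. -/
theorem exists_set (s m : ℕ) (hs : 1 ≤ s) (hm : 8 ≤ m) :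
    ∃ A : Finset (Fin m → ℤ), A ⊆ box m (2 ^ s) ∧ A.card = 2 ^ ((s - 1) * m) ∧
      VCLe A (16 * s + 15) := by
  classical
  by_contra hcon
  push Not at hcon
  obtain ⟨e, he⟩ : ∃ e, e = 4 * (s + 1) := ⟨_, rfl⟩
  obtain ⟨N, hN⟩ : ∃ N, N = 2 ^ s := ⟨_, rfl⟩
  obtain ⟨M, hM⟩ : ∃ M, M = 2 ^ ((s - 1) * m) := ⟨_, rfl⟩
  rw [← hN, ← hM] at hcon
  have hNcard : (box m N).card = 2 ^ m * M := by
    rw [card_box, hN, hM, ← pow_mul, ← pow_add]
    congr 1
    obtain ⟨s', rfl⟩ : ∃ s', s = s' + 1 := ⟨s - 1, by omega⟩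
    simp only [Nat.add_sub_cancel]
    ring
  -- the set of configurations
  obtain ⟨conf, hconf⟩ : ∃ conf : Finset ((Fin (4 * e) → (Fin m → ℤ)) ×
      (Fin (4 * e) → Finset (Fin (4 * e)) × (Fin m → ℤ))),
      conf = (Fintype.piFinset fun _ => box m N) ×ˢ
        (Fintype.piFinset fun _ => (univ : Finset (Finset (Fin (4 * e)))) ×ˢ dbox m N) := ⟨_, rfl⟩
  have hconfcard : conf.card = (N ^ m) ^ (4 * e) * (2 ^ (4 * e) * (2 * N) ^ m) ^ (4 * e) := by
    rw [hconf, card_product, Fintype.card_piFinset_const, Fintype.card_piFinset_const, card_product,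
      card_box, card_dbox, card_univ, Fintype.card_finset, Fintype.card_fin]
  let Φ : ((Fin (4 * e) → (Fin m → ℤ)) × (Fin (4 * e) → Finset (Fin (4 * e)) × (Fin m → ℤ))) →
      Finset (Fin m → ℤ) := fun p => univ.biUnion fun i => (p.2 i).1.image fun j => p.1 j - (p.2 i).2
  obtain ⟨𝒰, h𝒰⟩ : ∃ 𝒰 : Finset (Finset (Fin m → ℤ)),
      𝒰 = (conf.image Φ).filter fun U => U ⊆ box m N ∧ 4 * e * e ≤ U.card := ⟨_, rfl⟩
  have h𝒰card : 𝒰.card ≤ conf.card := by
    rw [h𝒰]; exact (card_filter_le _ _).trans card_image_le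
  have hcover : (box m N).powersetCard M ⊆
      𝒰.biUnion fun U => ((box m N).powersetCard M).filter fun A => U ⊆ A := by
    intro A hA
    have hA' := mem_powersetCard.1 hA
    have h1 := hcon A hA'.1 hA'.2
    unfold VCLe at h1
    push Not at h1
    obtain ⟨Y, hY, hYcard⟩ := h1
    obtain ⟨y, g, hy, hg, hsub, hcard⟩ := exists_config (e := e) (by omega) A hA'.1 Y hY (by omega)
    rw [mem_biUnion]
    refine ⟨Φ (y, g), ?_, ?_⟩
    · rw [h𝒰, mem_filter]
      refine ⟨mem_image_of_mem _ ?_, ?_, ?_⟩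
      · rw [hconf, mem_product]
        refine ⟨?_, ?_⟩
        · rw [Fintype.mem_piFinset]; exact hy
        · rw [Fintype.mem_piFinset]
          intro i
          rw [mem_product]
          exact ⟨mem_univ _, hg i⟩
      · exact hsub.trans hA'.1
      · exact hcard
    · rw [mem_filter]
      exact ⟨hA, hsub⟩
  have hpos : 0 < ((box m N).powersetCard M).card := by
    rw [card_powersetCard, hNcard]
    apply Nat.choose_pos
    exact Nat.le_mul_of_pos_left _ (by positivity)
  have hmain : (2 ^ m) ^ (4 * e * e) ≤ conf.card := by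
    have h1 : ((box m N).powersetCard M).card * (2 ^ m) ^ (4 * e * e) ≤
        conf.card * ((box m N).powersetCard M).card := by
      calc ((box m N).powersetCard M).card * (2 ^ m) ^ (4 * e * e)
          ≤ (∑ U ∈ 𝒰, (((box m N).powersetCard M).filter fun A => U ⊆ A).card) *
              (2 ^ m) ^ (4 * e * e) :=
            Nat.mul_le_mul_right _ ((card_le_card hcover).trans card_biUnion_le)
        _ = ∑ U ∈ 𝒰, (((box m N).powersetCard M).filter fun A => U ⊆ A).card *
              (2 ^ m) ^ (4 * e * e) := by rw [sum_mul]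
        _ ≤ ∑ _U ∈ 𝒰, ((box m N).powersetCard M).card := by
            apply sum_le_sum
            intro U hU
            rw [h𝒰, mem_filter] at hU
            exact card_supersets (box m N) U M (4 * e * e) m hNcard hU.2.1 hU.2.2
        _ = 𝒰.card * ((box m N).powersetCard M).card := by rw [sum_const, smul_eq_mul]
        _ ≤ _ := Nat.mul_le_mul_right _ h𝒰card
    rw [mul_comm] at h1
    exact Nat.le_of_mul_le_mul_right h1 hpos
  have hexp : conf.card = 2 ^ ((s * m + 4 * e + (s + 1) * m) * (4 * e)) := by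
    rw [hconfcard, hN]
    have : 2 * 2 ^ s = 2 ^ (s + 1) := by rw [pow_succ]; ring
    rw [this, ← pow_mul, ← pow_mul, ← pow_mul, ← pow_add, ← pow_mul, ← pow_add]
    congr 1
    ring
  rw [hexp, ← pow_mul] at hmain
  have h2 := (Nat.pow_le_pow_iff_right (by norm_num : 1 < 2)).1 hmain
  have h3 : m * e * (4 * e) ≤ (s * m + 4 * e + (s + 1) * m) * (4 * e) := by
    calc m * e * (4 * e) = m * (4 * e * e) := by ring
      _ ≤ _ := h2
  have h4 : m * e ≤ s * m + 4 * e + (s + 1) * m :=
    Nat.le_of_mul_le_mul_right h3 (by omega)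
  rw [he] at h4
  nlinarith

/-- Subsets of `{0, ..., 2^s - 1}^m` of density `2^(-m)` and VC-dimension at most `16 s + 15`
have doubling at most `4 ^ m`, but they are not covered by few translates of coset progressions
of rank at most `m / 2`. -/
theorem lower_translates (s m : ℕ) (hs : 1 ≤ s) (hm : 8 ≤ m) :
    ∃ A : Finset (Fin m → ℤ), A.Nonempty ∧ VCLe A (16 * s + 15) ∧
      (A + A).card ≤ 4 ^ m * A.card ∧
      ∀ (r : ℕ) (ψ : (Fin r → ℤ) →+ (Fin m → ℤ)) (H : AddSubgroup (Fin m → ℤ))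
        (W : Finset (Fin m → ℤ)), Finite H →
        (∀ a ∈ A, ∃ t ∈ W, ∃ c : Fin r → ℤ, ∃ h ∈ H, a = t + ψ c + h) →
        2 ^ (s * m) ≤ 2 ^ (m + s * r) * W.card := by
  obtain ⟨A, hAbox, hAcard, hvc⟩ := exists_set s m hs hm
  have e1 : (s - 1) * m + m = s * m := by
    obtain ⟨s', rfl⟩ : ∃ s', s = s' + 1 := ⟨s - 1, by omega⟩
    simp only [Nat.add_sub_cancel]
    ring
  refine ⟨A, card_pos.1 (by rw [hAcard]; positivity), hvc, ?_, ?_⟩
  · calc (A + A).card ≤ 2 ^ m * (2 ^ s) ^ m := card_add_self_le A hAbox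
      _ = 2 ^ m * 2 ^ ((s - 1) * m + m) := by rw [← pow_mul, e1]
      _ = (2 ^ m * 2 ^ m) * 2 ^ ((s - 1) * m) := by rw [pow_add]; ring
      _ = 4 ^ m * A.card := by rw [hAcard, ← mul_pow]; norm_num
  · intro r ψ H W hH hcov
    have h1 := card_le_of_cover (N := 2 ^ s) (Nat.one_le_two_pow) ψ H hH W A hAbox hcov
    rw [hAcard] at h1
    calc 2 ^ (s * m) = 2 ^ m * 2 ^ ((s - 1) * m) := by rw [← e1, pow_add]; ring
      _ ≤ 2 ^ m * (W.card * (2 ^ s) ^ r) := Nat.mul_le_mul_left _ h1
      _ = 2 ^ (m + s * r) * W.card := by rw [← pow_mul, pow_add]; ring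

/-- cubes -/
theorem lower_rank (m R : ℕ) :
    ∃ A : Finset (Fin m → ℤ), A.Nonempty ∧ VCLe A (2 * m) ∧
      (A + A).card ≤ 2 ^ m * A.card ∧
      ∀ (r : ℕ) (ψ : (Fin r → ℤ) →+ (Fin m → ℤ)) (H : AddSubgroup (Fin m → ℤ))
        (W : Finset (Fin m → ℤ)), r < m → Finite H →
        (∀ a ∈ A, ∃ t ∈ W, ∃ c : Fin r → ℤ, ∃ h ∈ H, a = t + ψ c + h) →
        R < W.card := by
  have hcard := card_box m (R + 1)
  refine ⟨box m (R + 1), card_pos.1 (by rw [hcard]; positivity), vcLe_box m _, ?_, ?_⟩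
  · rw [hcard]
    exact card_add_self_le _ (subset_refl _)
  · intro r ψ H W hr hH hcov
    have h1 := card_le_of_cover (N := R + 1) (by omega) ψ H hH W _ (subset_refl _) hcov
    rw [hcard] at h1
    have h2 : (R + 1) ^ m = (R + 1) ^ (m - r) * (R + 1) ^ r := by
      rw [← pow_add]; congr 1; omega
    rw [h2] at h1
    have h3 := Nat.le_of_mul_le_mul_right h1 (by positivity)
    have h4 : R + 1 ≤ (R + 1) ^ (m - r) := Nat.le_self_pow (by omega) _
    omega

end Pool.Agent.H83.VC
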