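import Pool.Graph.R_seed8.TH513.IS.Final
set_option autoImplicit false

/-! A variant of the Freiman-Ruzsa theorem for iterated sumsets: the set `A` which is covered and
the set `T` whose iterated sumset is small are different, `A ⊆ Y + T`. -/

namespace Pool.Agent.H83.VC

open Finset H112 Pool.Agent.TH513.IS
open scoped Pointwise

theorem scale_fg' {G : Type*} [AddCommGroup G] [AddGroup.FG G] [DecidableEq G] {L K M : ℝ}
    {J : ℕ} {T A Y : Finset G} (hT : T.Nonempty) (hA : A.Nonempty) (hJ : 1 ≤ J)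
    (hL : ((sm T (2 ^ J)).card : ℝ) ≤ L * T.card) (hL1 : 1 ≤ L) (hM1 : 1 ≤ M)
    (hM : (T.card : ℝ) ≤ M * A.card) (hY : ∀ a ∈ A, ∃ y ∈ Y, a - y ∈ T)
    (hK1 : 1 ≤ K) (hKL : L ≤ K ^ J) :
    ∃ (d : ℕ) (B : Set (Fin d → ℝ)) (ψ : (Fin d → ℤ) →+ G) (H₀ : AddSubgroup G) (W : Finset G),
      (d : ℝ) ≤ 300 * Real.log (2 * K) ∧ SymmBody B ∧ Finite H₀ ∧
      {c : Fin d → ℤ | (fun i => (c i : ℝ)) ∈ B}.ncard * Nat.card H₀ ≤ A.card ∧
      (W.card : ℝ) ≤
        Y.card * M * (L * (2 * K) ^ (13000 * (1 + Real.log (1 + Real.log (2 * K))))) ∧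
      Covers B ψ H₀ W A := by
  classical
  have hK0 : 0 < K := by linarith
  have hTpos : (0 : ℝ) < T.card := by exact_mod_cast hT.card_pos
  obtain ⟨i, hi, hiK⟩ := exists_scale hT hK0
    (hL.trans (mul_le_mul_of_nonneg_right hKL hTpos.le)) hJ
  obtain ⟨B, hB⟩ : ∃ B, B = sm T (2 ^ i) := ⟨_, rfl⟩
  have hBne : B.Nonempty := by rw [hB]; exact sm_nonempty hT _
  have hBB : ((B + B).card : ℝ) ≤ K * B.card := by
    have h1 : (B + B).card ≤ (sm T (2 ^ (i + 1))).card := by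
      apply Finset.card_le_card
      have e : 2 ^ (i + 1) = 2 ^ i + 2 ^ i := by ring
      rw [hB, e]
      exact sm_add_subset
    have h2 : ((B + B).card : ℝ) ≤ (sm T (2 ^ (i + 1))).card := by exact_mod_cast h1
    rw [← hB] at hiK
    exact h2.trans hiK
  have hBL : (B.card : ℝ) ≤ L * T.card := by
    have h1 : B.card ≤ (sm T (2 ^ J)).card := by
      rw [hB]
      exact sm_card_mono hT (Nat.pow_le_pow_right (by norm_num) hi.le)
    have h2 : (B.card : ℝ) ≤ (sm T (2 ^ J)).card := by exact_mod_cast h1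
    exact h2.trans hL
  obtain ⟨κ, hκ⟩ : ∃ κ : ℝ, κ = Real.log (2 * K) := ⟨_, rfl⟩
  have hκlog2 : Real.log 2 ≤ κ := by
    rw [hκ]; exact Real.log_le_log (by norm_num) (by linarith)
  have hκ69 : (0.69 : ℝ) < κ := lt_of_lt_of_le log_two_gt hκlog2
  obtain ⟨S, X, V, ρ, m, N, ψ, hfin, hV1, hsize, hρ0, hρ12, hX, hN, h1, h2, hm, hXV⟩ :=
    structure_thm hBne hBB hK1 hκ
  obtain ⟨t₀, ht₀⟩ := hT
  obtain ⟨k, hk⟩ : ∃ k, 2 ^ i = k + 1 := ⟨2 ^ i - 1, by
    have := Nat.one_le_two_pow (n := i)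
    omega⟩
  obtain ⟨X', hX'def⟩ : ∃ X', X' = X.image (fun x => x - k • t₀) := ⟨_, rfl⟩
  have hX' : ∀ a ∈ A, ∃ x ∈ Y + X', a - x ∈ bohr S ρ := by
    intro a ha
    obtain ⟨y, hy, hay⟩ := hY a ha
    have h3 : (a - y) + k • t₀ ∈ B := by
      rw [hB, hk, add_comm k 1]
      exact add_mem_sm (sm_one_mem hay) (nsmul_mem_sm ht₀ k)
    obtain ⟨x, hx, hxa⟩ := hX _ h3
    refine ⟨y + (x - k • t₀), Finset.add_mem_add hy ?_, ?_⟩
    · rw [hX'def]; exact Finset.mem_image_of_mem _ hx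
    have e : a - (y + (x - k • t₀)) = a - y + k • t₀ - x := by abel
    rw [e]
    exact hxa
  have hsize' : ((bohr S (1 / 6)).ncard : ℝ) ≤ (V * (L * M)) * A.card := by
    calc ((bohr S (1 / 6)).ncard : ℝ) ≤ V * B.card := hsize
      _ ≤ V * (L * T.card) := mul_le_mul_of_nonneg_left hBL (by linarith)
      _ ≤ V * (L * (M * A.card)) := by
          apply mul_le_mul_of_nonneg_left _ (by linarith)
          exact mul_le_mul_of_nonneg_left hM (by linarith)
      _ = _ := by ring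
  have hLM : 1 ≤ L * M := by nlinarith
  have hVL : 1 ≤ V * (L * M) := by nlinarith
  obtain ⟨d, Bd, ψ', H₀, W, hd, hBd, hH₀, hvol, hW, hcov⟩ :=
    cover_final S hfin hA hVL hsize' hρ0 hρ12 hX' N ψ hN h1 h2
  have hlogκ : 0 ≤ Real.log (1 + κ) := Real.log_nonneg (by linarith)
  refine ⟨d, Bd, ψ', H₀, W, ?_, hBd, hH₀, hvol, ?_, hcov⟩
  · rw [← hκ]
    have : (d : ℝ) ≤ max (m : ℝ) 1 := by exact_mod_cast hd
    refine this.trans (max_le hm (by linarith))
  · rw [← exp_eq_rpow hK1, ← hκ]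
    have h3 : ((4 * (m : ℝ) + 1)) ^ (2 * m) ≤
        Real.exp ((600 * κ) * (8 * (1 + Real.log (1 + κ)))) :=
      pow_le_exp (by positivity) (log_4m_le hκ69 hm) (by push_cast; linarith) (by positivity)
    have hV0 : 0 ≤ V := by linarith
    have hXc : ((Y + X').card : ℝ) ≤ Y.card * X.card := by
      have h4 : (Y + X').card ≤ Y.card * X'.card := Finset.card_add_le
      have h5 : X'.card ≤ X.card := by rw [hX'def]; exact Finset.card_image_le
      exact_mod_cast h4.trans (Nat.mul_le_mul_left _ h5)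
    have hM0 : 0 ≤ M := by linarith
    have hL0 : 0 ≤ L := by linarith
    calc (W.card : ℝ) ≤ (Y + X').card *
          (6 * (V * (L * M)) * (4 * m + 1) ^ (2 * m)) := hW
      _ ≤ (Y.card * X.card) * (6 * (V * (L * M)) * (4 * m + 1) ^ (2 * m)) :=
          mul_le_mul_of_nonneg_right hXc (by positivity)
      _ = Y.card * M * (L * ((X.card * V) * (6 * (4 * m + 1) ^ (2 * m)))) := by ring
      _ ≤ Y.card * M * (L * (Real.exp (8000 * κ * (1 + Real.log (1 + κ))) *
            (Real.exp (3 * κ) * Real.exp ((600 * κ) * (8 * (1 + Real.log (1 + κ))))))) := by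
          apply mul_le_mul_of_nonneg_left _ (by positivity)
          apply mul_le_mul_of_nonneg_left _ hL0
          apply mul_le_mul hXV _ (by positivity) (by positivity)
          exact mul_le_mul (six_le_exp hκ69) h3 (by positivity) (by positivity)
      _ = Y.card * M * (L * Real.exp (8000 * κ * (1 + Real.log (1 + κ)) +
            (3 * κ + (600 * κ) * (8 * (1 + Real.log (1 + κ)))))) := by
          rw [← Real.exp_add, ← Real.exp_add]
      _ ≤ Y.card * M * (L * Real.exp (13000 * κ * (1 + Real.log (1 + κ)))) := by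
          apply mul_le_mul_of_nonneg_left _ (by positivity)
          apply mul_le_mul_of_nonneg_left _ hL0
          apply Real.exp_le_exp.2
          have h10 : 0 ≤ κ * Real.log (1 + κ) := mul_nonneg (by linarith) hlogκ
          nlinarith

/-- the same in an arbitrary abelian group -/
theorem scale_general' {G : Type*} [AddCommGroup G] [DecidableEq G] {L K M : ℝ}
    {J : ℕ} {T A Y : Finset G} (hT : T.Nonempty) (hA : A.Nonempty) (hJ : 1 ≤ J)
    (hL : ((sm T (2 ^ J)).card : ℝ) ≤ L * T.card) (hL1 : 1 ≤ L) (hM1 : 1 ≤ M)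
    (hM : (T.card : ℝ) ≤ M * A.card) (hY : ∀ a ∈ A, ∃ y ∈ Y, a - y ∈ T)
    (hK1 : 1 ≤ K) (hKL : L ≤ K ^ J) :
    ∃ (d : ℕ) (B : Set (Fin d → ℝ)) (ψ : (Fin d → ℤ) →+ G) (H₀ : AddSubgroup G) (W : Finset G),
      (d : ℝ) ≤ 300 * Real.log (2 * K) ∧ SymmBody B ∧ Finite H₀ ∧
      {c : Fin d → ℤ | (fun i => (c i : ℝ)) ∈ B}.ncard * Nat.card H₀ ≤ A.card ∧
      (W.card : ℝ) ≤
        Y.card * M * (L * (2 * K) ^ (13000 * (1 + Real.log (1 + Real.log (2 * K))))) ∧
      Covers B ψ H₀ W A := by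
  classical
  obtain ⟨Γ, hΓ⟩ : ∃ Γ : AddSubgroup G,
    Γ = AddSubgroup.closure ((T ∪ (A ∪ Y) : Finset G) : Set G) := ⟨_, rfl⟩
  have hmem : ∀ x ∈ (T ∪ (A ∪ Y) : Finset G), x ∈ Γ := fun x hx => by
    rw [hΓ]; exact AddSubgroup.subset_closure hx
  obtain ⟨A', hA'⟩ := exists_model A Γ (fun a ha => hmem a (by simp [ha]))
  obtain ⟨T', hT'⟩ := exists_model T Γ (fun a ha => hmem a (by simp [ha]))
  obtain ⟨Y', hY'⟩ := exists_model Y Γ (fun a ha => hmem a (by simp [ha]))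
  have hinj : Function.Injective Γ.subtype := Γ.subtype_injective
  have : AddGroup.FG Γ := by
    rw [AddGroup.fg_iff_addSubgroup_fg]
    exact ⟨_, hΓ.symm⟩
  have hA'ne : A'.Nonempty := by
    rw [← hA'] at hA; exact Finset.image_nonempty.1 hA
  have hT'ne : T'.Nonempty := by
    rw [← hT'] at hT; exact Finset.image_nonempty.1 hT
  have hcardA : A'.card = A.card := by
    rw [← hA', Finset.card_image_of_injective _ hinj]
  have hcardT : T'.card = T.card := by
    rw [← hT', Finset.card_image_of_injective _ hinj]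
  have hcardY : Y'.card = Y.card := by
    rw [← hY', Finset.card_image_of_injective _ hinj]
  have hcard2 : (sm T' (2 ^ J)).card = (sm T (2 ^ J)).card := by
    rw [← hT', ← sm_image, Finset.card_image_of_injective _ hinj]
  have hL' : ((sm T' (2 ^ J)).card : ℝ) ≤ L * T'.card := by rw [hcard2, hcardT]; exact hL
  have hM' : (T'.card : ℝ) ≤ M * A'.card := by rw [hcardA, hcardT]; exact hM
  have hYY : ∀ a ∈ A', ∃ y ∈ Y', a - y ∈ T' := by
    intro a ha
    have h1 : Γ.subtype a ∈ A := by rw [← hA']; exact Finset.mem_image_of_mem _ ha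
    obtain ⟨y, hy, hay⟩ := hY _ h1
    rw [← hY'] at hy
    obtain ⟨y', hy', rfl⟩ := Finset.mem_image.1 hy
    refine ⟨y', hy', ?_⟩
    rw [← map_sub, ← hT'] at hay
    obtain ⟨t', ht', hte⟩ := Finset.mem_image.1 hay
    rw [← hinj hte]
    exact ht'
  obtain ⟨d, B, ψ, H₀, W, hd, hB, hH₀, hvol, hW, hcov⟩ :=
    scale_fg' hT'ne hA'ne hJ hL' hL1 hM1 hM' hYY hK1 hKL
  refine ⟨d, B, Γ.subtype.comp ψ, H₀.map Γ.subtype, W.image Γ.subtype, hd, hB, ?_, ?_, ?_, ?_⟩
  · have : (H₀.map Γ.subtype : Set G).Finite := by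
      rw [AddSubgroup.coe_map]
      exact (Set.toFinite (H₀ : Set Γ)).image _
    exact this.to_subtype
  · have h1 : Nat.card (H₀.map Γ.subtype) = Nat.card H₀ :=
      Nat.card_congr (H₀.equivMapOfInjective Γ.subtype hinj).toEquiv.symm
    rw [h1, ← hcardA]
    exact hvol
  · rw [hcardY] at hW
    refine le_trans ?_ hW
    exact_mod_cast Finset.card_image_le
  · intro a ha
    rw [← hA'] at ha
    obtain ⟨a', ha', rfl⟩ := Finset.mem_image.1 ha
    obtain ⟨t, ht, c, hc, h, hh, e⟩ := hcov a' ha'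
    refine ⟨Γ.subtype t, Finset.mem_image_of_mem _ ht, c, hc, Γ.subtype h, ⟨h, hh, rfl⟩, ?_⟩
    rw [e, map_add, map_add]
    rfl

/-- **Freiman-Ruzsa theorem for iterated sumsets, two sets.** -/
theorem iterated' {G : Type*} [AddCommGroup G] [DecidableEq G] {k n : ℕ} (hk : 1 ≤ k)
    (hn : 2 ≤ n) {L M : ℝ} {T A Y : Finset G} (hT : T.Nonempty) (hA : A.Nonempty)
    (hL : ((sm T n).card : ℝ) ≤ L * T.card) (hM1 : 1 ≤ M)
    (hM : (T.card : ℝ) ≤ M * A.card) (hY : ∀ a ∈ A, ∃ y ∈ Y, a - y ∈ T)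
    (hkn : Real.log (2 * L) ≤ (n : ℝ) ^ k) :
    ∃ (d : ℕ) (B : Set (Fin d → ℝ)) (ψ : (Fin d → ℤ) →+ G) (H₀ : AddSubgroup G) (W : Finset G),
      (d : ℝ) ≤ 420 * (1 + Real.log (2 * L) / Real.log n) ∧ SymmBody B ∧ Finite H₀ ∧
      {c : Fin d → ℤ | (fun i => (c i : ℝ)) ∈ B}.ncard * Nat.card H₀ ≤ A.card ∧
      (W.card : ℝ) ≤ Y.card * M * (2 * L) ^ (86000 * k) ∧
      Covers B ψ H₀ W A := by
  classical
  have hTpos : (0 : ℝ) < T.card := by exact_mod_cast hT.card_pos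
  have hL1 : 1 ≤ L := by
    have h1 : T.card ≤ (sm T n).card := by
      have := sm_card_mono hT (show 1 ≤ n by omega)
      rwa [sm_one] at this
    have h2 : (T.card : ℝ) ≤ (sm T n).card := by exact_mod_cast h1
    nlinarith
  obtain ⟨J, hJ⟩ : ∃ J, J = Nat.log 2 n := ⟨_, rfl⟩
  have hJ1 : 1 ≤ J := by
    rw [hJ]
    exact Nat.log_pos (by norm_num) hn
  have hJR : (1 : ℝ) ≤ J := by exact_mod_cast hJ1
  have hL' : ((sm T (2 ^ J)).card : ℝ) ≤ L * T.card := by
    have h1 : (sm T (2 ^ J)).card ≤ (sm T n).card := by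
      apply sm_card_mono hT
      rw [hJ]
      exact Nat.pow_log_le_self 2 (by omega)
    have h2 : ((sm T (2 ^ J)).card : ℝ) ≤ (sm T n).card := by exact_mod_cast h1
    exact h2.trans hL
  obtain ⟨K, hK⟩ : ∃ K : ℝ, K = L ^ (1 / (J : ℝ)) := ⟨_, rfl⟩
  have hK1 : 1 ≤ K := by
    rw [hK]
    exact Real.one_le_rpow hL1 (by positivity)
  have hK0 : 0 < K := by linarith
  have hKJ : K ^ J = L := by
    rw [hK, ← Real.rpow_natCast, ← Real.rpow_mul (by linarith)]
    have : 1 / (J : ℝ) * J = 1 := by field_simp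
    rw [this, Real.rpow_one]
  obtain ⟨d, B, ψ, H₀, W, hd, hB, hH₀, hvol, hW, hcov⟩ :=
    scale_general' hT hA hJ1 hL' hL1 hM1 hM hY hK1 hKJ.ge
  have hκ' : Real.log (2 * K) = Real.log 2 + Real.log L / (Nat.log 2 n : ℝ) := by
    rw [Real.log_mul (by norm_num) (by linarith), hK, Real.log_rpow (by linarith), ← hJ]
    ring
  obtain ⟨hb1, hb2⟩ := kappa_bounds hk hn hL1 hκ' hkn
  refine ⟨d, B, ψ, H₀, W, hd.trans hb1, hB, hH₀, hvol, ?_, hcov⟩
  refine hW.trans ?_
  apply mul_le_mul_of_nonneg_left _ (mul_nonneg (Nat.cast_nonneg _) (by linarith))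
  rw [← exp_eq_rpow hK1]
  have e1 : (2 * L) ^ (86000 * k) = Real.exp (86000 * k * Real.log (2 * L)) := by
    rw [← Real.exp_log (show (0 : ℝ) < (2 * L) ^ (86000 * k) by positivity), Real.log_pow]
    push_cast
    ring_nf
  rw [e1]
  calc L * Real.exp (13000 * Real.log (2 * K) * (1 + Real.log (1 + Real.log (2 * K))))
      = Real.exp (Real.log L + 13000 * Real.log (2 * K) *
          (1 + Real.log (1 + Real.log (2 * K)))) := by
        rw [Real.exp_add, Real.exp_log (by linarith)]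
    _ ≤ _ := Real.exp_le_exp.2 hb2

end Pool.Agent.H83.VC
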