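import Pool.Agent.H83.VC.Struct
import Pool.Agent.H83.VC.Pack
set_option autoImplicit false

/-! Sets of small doubling and bounded VC-dimension: the upper bound. -/

namespace Pool.Agent.H83.VC

open Finset H112 Pool.Agent.TH513.IS
open scoped Pointwise symmDiff

variable {Γ : Type*} [AddCommGroup Γ] [DecidableEq Γ]

/-- translate -/
def tr (x : Γ) (B : Finset Γ) : Finset Γ := B.image (fun b => x + b)

theorem mem_tr {x y : Γ} {B : Finset Γ} : y ∈ tr x B ↔ y - x ∈ B := by
  unfold tr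
  rw [mem_image]
  constructor
  · rintro ⟨b, hb, rfl⟩; simpa using hb
  · intro h; exact ⟨y - x, h, by abel⟩

theorem card_tr (x : Γ) (B : Finset Γ) : (tr x B).card = B.card :=
  card_image_of_injective _ (add_right_injective x)

/-- how much `B` moves under translation by `x` -/
def del (B : Finset Γ) (x : Γ) : ℕ := (tr x B ∆ B).card

theorem card_symmDiff_tr (x y : Γ) (B : Finset Γ) : (tr x B ∆ tr y B).card = del B (x - y) := by
  have h : tr x B ∆ tr y B = tr y (tr (x - y) B ∆ B) := by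
    ext z
    simp only [mem_symmDiff, mem_tr]
    have e : z - y - (x - y) = z - x := by abel
    rw [e]
  rw [h, card_tr, del]

theorem del_zero (B : Finset Γ) : del B 0 = 0 := by
  have : tr 0 B = B := by ext z; simp [mem_tr]
  simp [del, this]

theorem del_neg (B : Finset Γ) (x : Γ) : del B (-x) = del B x := by
  have h1 := card_symmDiff_tr 0 x B
  have h2 := card_symmDiff_tr x 0 B
  rw [symmDiff_comm, h2] at h1
  simpa using h1.symm

theorem del_add_le (B : Finset Γ) (x y : Γ) : del B (x + y) ≤ del B x + del B y := by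
  have h1 : tr (x + y) B ∆ B ⊆ (tr (x + y) B ∆ tr y B) ∪ (tr y B ∆ B) := by
    intro z
    simp only [mem_union, mem_symmDiff]
    tauto
  calc del B (x + y) ≤ ((tr (x + y) B ∆ tr y B) ∪ (tr y B ∆ B)).card := card_le_card h1
    _ ≤ _ := card_union_le _ _
    _ = del B x + del B y := by rw [card_symmDiff_tr]; simp [del]

theorem del_sum_le (B : Finset Γ) {ι : Type*} (s : Finset ι) (f : ι → Γ) :
    del B (∑ i ∈ s, f i) ≤ ∑ i ∈ s, del B (f i) := by
  classical
  induction s using Finset.induction_on with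
  | empty => simp [del_zero]
  | insert a s ha ih =>
    rw [sum_insert ha, sum_insert ha]
    exact (del_add_le _ _ _).trans (Nat.add_le_add_left ih _)

/-- few translations move `B` little -/
theorem card_small_del (B : Finset Γ) (hB : B.Nonempty) (X : Finset Γ)
    (hX : ∀ x ∈ X, del B x ≤ B.card) : X.card ≤ 2 * B.card := by
  have h1 : ∀ x ∈ X, B.card ≤ 2 * (tr x B ∩ B).card := by
    intro x hx
    have h2 := hX x hx
    have h3 : (tr x B ∆ B).card = (tr x B \ B).card + (B \ tr x B).card := by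
      rw [symmDiff_def, sup_eq_union, card_union_of_disjoint disjoint_sdiff_sdiff]
    have h4 := card_sdiff_add_card_inter (tr x B) B
    have h5 := card_sdiff_add_card_inter B (tr x B)
    rw [inter_comm] at h5
    rw [card_tr] at h4
    unfold del at h2
    omega
  have h2 : ∑ x ∈ X, (tr x B ∩ B).card ≤ B.card * B.card := by
    rw [← card_sigma, ← card_product]
    apply card_le_card_of_injOn (fun p : (Σ _ : Γ, Γ) => (p.2, p.2 - p.1))
    · rintro ⟨x, c⟩ h
      simp only [coe_sigma, Set.mem_sigma_iff, mem_coe, mem_inter, mem_tr] at h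
      simp only [coe_product, Set.mem_prod, mem_coe]
      exact ⟨h.2.2, h.2.1⟩
    · rintro ⟨x, c⟩ _ ⟨x', c'⟩ _ h
      simp only [Prod.mk.injEq] at h
      obtain ⟨h3, h4⟩ := h
      subst h3
      have : x = x' := by simpa using h4
      rw [this]
  have h3 : X.card * B.card ≤ 2 * (B.card * B.card) := by
    calc X.card * B.card = ∑ x ∈ X, B.card := by rw [sum_const, smul_eq_mul]
      _ ≤ ∑ x ∈ X, 2 * (tr x B ∩ B).card := sum_le_sum h1
      _ = 2 * ∑ x ∈ X, (tr x B ∩ B).card := by rw [mul_sum]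
      _ ≤ _ := Nat.mul_le_mul_left _ h2
  have h4 : 0 < B.card := hB.card_pos
  have h5 : X.card * B.card ≤ (2 * B.card) * B.card := by rw [mul_assoc]; exact h3
  exact Nat.le_of_mul_le_mul_right h5 h4

/-- a large part of `A` consists of elements whose translates of `B` are close to each other -/
theorem exists_cluster (A B : Finset Γ) (hA : A.Nonempty) (hB : B.Nonempty) {K : ℝ} {d n : ℕ}
    (hn : 1 ≤ n) (hAB : ((A + B).card : ℝ) ≤ K * B.card) (hvc : VCLe B d) :
    ∃ T ⊆ A, T.Nonempty ∧ (A.card : ℝ) ≤ (8 * d * n * K + 2) ^ (2 * d) * T.card ∧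
      ∀ x ∈ T - T, n * del B x ≤ B.card := by
  classical
  have hBpos : (0 : ℝ) < B.card := by exact_mod_cast hB.card_pos
  have hK0 : 0 ≤ K := by
    by_contra h
    push Not at h
    have : K * B.card < 0 := mul_neg_of_neg_of_pos h hBpos
    have h2 : (0 : ℝ) ≤ (A + B).card := Nat.cast_nonneg _
    linarith
  obtain ⟨s, hs⟩ : ∃ s, s = B.card / (2 * n) + 1 := ⟨_, rfl⟩
  -- a maximal separated set
  obtain ⟨𝒮, h𝒮⟩ : ∃ 𝒮 : Finset (Finset Γ), ∀ T, T ∈ 𝒮 ↔ T ⊆ A ∧
    (∀ x ∈ T, ∀ y ∈ T, x ≠ y → s ≤ del B (x - y)) := ⟨A.powerset.filter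
    (fun T => ∀ x ∈ T, ∀ y ∈ T, x ≠ y → s ≤ del B (x - y)), fun T => by
      rw [mem_filter, mem_powerset]⟩
  have h𝒮ne : 𝒮.Nonempty := ⟨∅, (h𝒮 _).2 (by simp)⟩
  obtain ⟨T₀, hT₀, hmax⟩ := exists_max_image 𝒮 card h𝒮ne
  rw [h𝒮] at hT₀
  obtain ⟨hT₀A, hsep⟩ := hT₀
  have hclose : ∀ a ∈ A, ∃ t ∈ T₀, 2 * n * del B (a - t) ≤ B.card := by
    intro a ha
    by_contra hcon
    push Not at hcon
    have hfar : ∀ t ∈ T₀, s ≤ del B (a - t) := by
      intro t ht
      have h1 := hcon t ht
      rw [hs]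
      have h2 : B.card / (2 * n) < del B (a - t) := by
        rw [Nat.div_lt_iff_lt_mul (by omega)]
        calc B.card < 2 * n * del B (a - t) := h1
          _ = _ := by ring
      omega
    have haT : a ∉ T₀ := by
      intro h
      have := hcon a h
      simp [del_zero] at this
    have hmem : insert a T₀ ∈ 𝒮 := by
      rw [h𝒮]
      refine ⟨insert_subset ha hT₀A, ?_⟩
      intro x hx y hy hxy
      rw [mem_insert] at hx hy
      rcases hx with rfl | hx
      · rcases hy with rfl | hy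
        · exact absurd rfl hxy
        · exact hfar y hy
      · rcases hy with rfl | hy
        · rw [← del_neg, neg_sub]; exact hfar x hx
        · exact hsep x hx y hy hxy
    have := hmax _ hmem
    rw [card_insert_of_notMem haT] at this
    omega
  -- bound for the separated set
  have hpack : (T₀.card : ℝ) ≤ (8 * d * n * K + 2) ^ (2 * d) := by
    have h1 := packing T₀ (fun x => tr x B) (A + B) d s (by rw [hs]; exact Nat.succ_pos _)
      (by
        intro x hx z hz
        rw [mem_tr] at hz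
        rw [mem_add]
        exact ⟨x, hT₀A hx, z - x, hz, by abel⟩)
      (by
        intro x hx y hy hxy
        rw [card_symmDiff_tr]
        exact hsep x hx y hy hxy)
      (by
        intro Y hY
        apply hvc
        intro Z hZ
        obtain ⟨x, _, hx⟩ := hY Z hZ
        refine ⟨x, fun y hy => ?_⟩
        rw [← hx, mem_inter, mem_tr]
        exact ⟨fun h => ⟨h, hy⟩, fun h => h.1⟩)
    refine h1.trans (pow_le_pow_left₀ (by positivity) ?_ _)
    have hnR : (0 : ℝ) < n := by exact_mod_cast hn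
    have h2 : (B.card : ℝ) / (2 * n) ≤ s := by
      rw [div_le_iff₀ (by positivity)]
      have h3 : B.card < (B.card / (2 * n) + 1) * (2 * n) := by
        have := Nat.lt_div_mul_add (a := B.card) (b := 2 * n) (by omega)
        nlinarith
      rw [← hs] at h3
      exact_mod_cast h3.le
    have hs0 : (0 : ℝ) < s := by rw [hs]; positivity
    have h4 : ((A + B).card : ℝ) / s ≤ 2 * n * K := by
      rw [div_le_iff₀ hs0]
      calc ((A + B).card : ℝ) ≤ K * B.card := hAB
        _ = 2 * n * K * (B.card / (2 * n)) := by field_simp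
        _ ≤ 2 * n * K * s := mul_le_mul_of_nonneg_left h2 (by positivity)
    have h5 : 4 * (d : ℝ) * (((A + B).card : ℝ) / s) ≤ 4 * d * (2 * n * K) :=
      mul_le_mul_of_nonneg_left h4 (by positivity)
    linarith
  -- pigeonhole
  obtain ⟨a₀, ha₀⟩ := hA
  obtain ⟨t₁, ht₁, -⟩ := hclose a₀ ha₀
  obtain ⟨t, ht, htmax⟩ := exists_max_image T₀
    (fun t => (A.filter fun a => 2 * n * del B (a - t) ≤ B.card).card) ⟨t₁, ht₁⟩
  obtain ⟨T, hT⟩ : ∃ T, T = A.filter fun a => 2 * n * del B (a - t) ≤ B.card := ⟨_, rfl⟩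
  have hcard : A.card ≤ T₀.card * T.card := by
    have h1 : A ⊆ T₀.biUnion fun t => A.filter fun a => 2 * n * del B (a - t) ≤ B.card := by
      intro a ha
      obtain ⟨t, ht, h⟩ := hclose a ha
      rw [mem_biUnion]
      exact ⟨t, ht, by rw [mem_filter]; exact ⟨ha, h⟩⟩
    calc A.card ≤ _ := card_le_card h1
      _ ≤ ∑ t ∈ T₀, (A.filter fun a => 2 * n * del B (a - t) ≤ B.card).card := card_biUnion_le
      _ ≤ ∑ _t ∈ T₀, T.card := sum_le_sum (fun t' ht' => by rw [hT]; exact htmax t' ht')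
      _ = _ := by rw [sum_const, smul_eq_mul]
  have hTne : T.Nonempty := by
    rw [nonempty_iff_ne_empty]
    rintro h
    rw [h, card_empty, mul_zero] at hcard
    have : 0 < A.card := card_pos.2 ⟨a₀, ha₀⟩
    omega
  refine ⟨T, by rw [hT]; exact filter_subset _ _, hTne, ?_, ?_⟩
  · calc (A.card : ℝ) ≤ T₀.card * T.card := by exact_mod_cast hcard
      _ ≤ _ := mul_le_mul_of_nonneg_right hpack (Nat.cast_nonneg _)
  · intro x hx
    obtain ⟨a, ha, b, hb, rfl⟩ := mem_sub.1 hx
    rw [hT, mem_filter] at ha hb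
    have h1 : del B (a - b) ≤ del B (a - t) + del B (b - t) := by
      have e : a - b = (a - t) + (-(b - t)) := by abel
      rw [e]
      refine (del_add_le _ _ _).trans ?_
      rw [del_neg]
    have h2 := ha.2
    have h3 := hb.2
    have h4 : 2 * n * del B (a - b) ≤ 2 * B.card := by
      calc 2 * n * del B (a - b) ≤ 2 * n * (del B (a - t) + del B (b - t)) :=
            Nat.mul_le_mul_left _ h1
        _ = 2 * n * del B (a - t) + 2 * n * del B (b - t) := by ring
        _ ≤ 2 * B.card := by omega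
    have h5 : 2 * (n * del B (a - b)) ≤ 2 * B.card := by rw [← mul_assoc]; exact h4
    omega

/-- numerical estimates -/
theorem numerics {K x : ℝ} {d : ℕ} (hK : 1 ≤ K) (hx : 2 * (d + 1) * K ≤ x) :
    4 * K * (8 * d * x * K + 2) ^ (2 * d) ≤ x ^ (8 * d + 2) := by
  have hd : (0 : ℝ) ≤ d := Nat.cast_nonneg d
  have hx2K : 2 * K ≤ x := by nlinarith
  have hx2 : 2 ≤ x := by linarith
  have hx0 : 0 < x := by linarith
  have h1 : 8 * d * x * K + 2 ≤ 4 * x ^ 2 := by
    have h2 : x * (2 * (d + 1) * K) ≤ x * x := mul_le_mul_of_nonneg_left hx hx0.le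
    nlinarith
  have h2 : 4 * x ^ 2 ≤ x ^ 4 := by
    have h4 : (4 : ℝ) ≤ x ^ 2 := by nlinarith
    calc 4 * x ^ 2 ≤ x ^ 2 * x ^ 2 := mul_le_mul_of_nonneg_right h4 (by positivity)
      _ = x ^ 4 := by ring
  have h3 : (8 * d * x * K + 2) ^ (2 * d) ≤ (x ^ 4) ^ (2 * d) :=
    pow_le_pow_left₀ (by positivity) (h1.trans h2) _
  calc 4 * K * (8 * d * x * K + 2) ^ (2 * d) ≤ (2 * x) * (x ^ 4) ^ (2 * d) := by
        apply mul_le_mul (by linarith) h3 (by positivity) (by positivity)
    _ ≤ (x * x) * (x ^ 4) ^ (2 * d) := by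
        apply mul_le_mul_of_nonneg_right _ (by positivity)
        exact mul_le_mul_of_nonneg_right hx2 hx0.le
    _ = x ^ (8 * d + 2) := by ring

/-- **Upper bound.** -/
theorem bounded_vc (K : ℝ) (d : ℕ) (A B : Finset Γ) (hA : A.Nonempty) (hB : B.Nonempty)
    (hAB : ((A + B).card : ℝ) ≤ K * B.card) (hBA : (B.card : ℝ) ≤ K * A.card)
    (hvc : VCLe B d) :
    ∃ (r : ℕ) (C : Set (Fin r → ℝ)) (ψ : (Fin r → ℤ) →+ Γ) (H : AddSubgroup Γ) (W : Finset Γ),
      r ≤ 3360 * (d + 1) ∧ SymmBody C ∧ Finite H ∧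
      {c : Fin r → ℤ | (fun i => (c i : ℝ)) ∈ C}.ncard * Nat.card H ≤ A.card ∧
      (W.card : ℝ) ≤ (3 * (d + 1) * K) ^ (2752032 * (d + 1)) ∧
      Covers C ψ H W A := by
  classical
  have hBpos : (0 : ℝ) < B.card := by exact_mod_cast hB.card_pos
  have hApos : (0 : ℝ) < A.card := by exact_mod_cast hA.card_pos
  have hK1 : 1 ≤ K := by
    have h1 : (B.card : ℝ) ≤ (A + B).card := by
      exact_mod_cast card_le_card_add_left hA
    nlinarith
  have hd0 : (0 : ℝ) ≤ d := Nat.cast_nonneg d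
  have hlarge : (2 : ℝ) ≤ 2 * (d + 1) * K := by nlinarith
  obtain ⟨n, hn⟩ : ∃ n, n = ⌈2 * ((d : ℝ) + 1) * K⌉₊ := ⟨_, rfl⟩
  have hn1 : 2 * ((d : ℝ) + 1) * K ≤ n := by rw [hn]; exact Nat.le_ceil _
  have hn2 : (n : ℝ) ≤ 3 * (d + 1) * K := by
    have : (n : ℝ) < 2 * (d + 1) * K + 1 := by
      rw [hn]; exact Nat.ceil_lt_add_one (by linarith)
    nlinarith
  have hnR : (2 : ℝ) ≤ n := by linarith
  have hn2' : 2 ≤ n := by exact_mod_cast hnR
  obtain ⟨T, hTA, hTne, hTcard, hTdel⟩ := exists_cluster A B hA hB (n := n) (by omega) hAB hvc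
  obtain ⟨P, hP⟩ : ∃ P : ℝ, P = (8 * d * n * K + 2) ^ (2 * d) := ⟨_, rfl⟩
  rw [← hP] at hTcard
  have hP1 : 1 ≤ P := by
    rw [hP]
    apply one_le_pow₀
    have : (0 : ℝ) ≤ 8 * d * n * K := by positivity
    linarith
  obtain ⟨T', hT'⟩ : ∃ T', T' = T - T := ⟨_, rfl⟩
  rw [← hT'] at hTdel
  have hT'ne : T'.Nonempty := by rw [hT']; exact hTne.sub hTne
  have hTT' : (T.card : ℝ) ≤ T'.card := by
    rw [hT']
    exact_mod_cast card_le_card_sub_right hTne
  have hsm : ((sm T' n).card : ℝ) ≤ 2 * B.card := by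
    have : (sm T' n).card ≤ 2 * B.card := by
      apply card_small_del B hB
      intro x hx
      rw [mem_sm] at hx
      obtain ⟨f, hf, rfl⟩ := hx
      have h1 : n * del B (∑ i, f i) ≤ n * B.card := by
        calc n * del B (∑ i, f i) ≤ n * ∑ i, del B (f i) :=
              Nat.mul_le_mul_left _ (del_sum_le B univ f)
          _ = ∑ i, n * del B (f i) := by rw [mul_sum]
          _ ≤ ∑ _i : Fin n, B.card := sum_le_sum (fun i _ => hTdel _ (hf i))
          _ = n * B.card := by simp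
      exact Nat.le_of_mul_le_mul_left h1 (by omega)
    exact_mod_cast this
  obtain ⟨L, hL⟩ : ∃ L : ℝ, L = 2 * K * P := ⟨_, rfl⟩
  have hsmL : ((sm T' n).card : ℝ) ≤ L * T'.card := by
    calc ((sm T' n).card : ℝ) ≤ 2 * B.card := hsm
      _ ≤ 2 * (K * A.card) := by linarith
      _ ≤ 2 * (K * (P * T.card)) := by
          apply mul_le_mul_of_nonneg_left _ (by norm_num)
          exact mul_le_mul_of_nonneg_left hTcard (by linarith)
      _ = L * T.card := by rw [hL]; ring
      _ ≤ L * T'.card := by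
          apply mul_le_mul_of_nonneg_left hTT'
          rw [hL]; positivity
  have hM : (T'.card : ℝ) ≤ (2 * K) * A.card := by
    have h1 : (T'.card : ℝ) ≤ (sm T' n).card := by
      have := sm_card_mono hT'ne (show 1 ≤ n by omega)
      rw [sm_one] at this
      exact_mod_cast this
    calc (T'.card : ℝ) ≤ 2 * B.card := h1.trans hsm
      _ ≤ 2 * (K * A.card) := by linarith
      _ = _ := by ring
  -- Ruzsa covering
  have hAA : ((A + A).card : ℝ) ≤ K ^ 3 * A.card := by
    have h1 := ruzsa_triangle_inequality_add_add_add A B A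
    have h2 : ((A + A).card : ℝ) * B.card ≤ (A + B).card * (B + A).card := by exact_mod_cast h1
    rw [add_comm B A] at h2
    have h3 : ((A + B).card : ℝ) * (A + B).card ≤ (K * B.card) * (K * B.card) :=
      mul_le_mul hAB hAB (Nat.cast_nonneg _) (by positivity)
    have h4 : ((A + A).card : ℝ) * B.card ≤ (K ^ 2 * B.card) * B.card := by
      calc _ ≤ _ := h2
        _ ≤ _ := h3
        _ = _ := by ring
    have h5 : ((A + A).card : ℝ) ≤ K ^ 2 * B.card := le_of_mul_le_mul_right h4 hBpos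
    calc ((A + A).card : ℝ) ≤ K ^ 2 * B.card := h5
      _ ≤ K ^ 2 * (K * A.card) := mul_le_mul_of_nonneg_left hBA (by positivity)
      _ = _ := by ring
  have hAT : ((A + T).card : ℝ) ≤ (K ^ 3 * P) * T.card := by
    have h1 : ((A + T).card : ℝ) ≤ (A + A).card := by
      exact_mod_cast card_le_card (add_subset_add_left hTA)
    calc ((A + T).card : ℝ) ≤ _ := h1
      _ ≤ K ^ 3 * A.card := hAA
      _ ≤ K ^ 3 * (P * T.card) := mul_le_mul_of_nonneg_left hTcard (by positivity)
      _ = _ := by ring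
  obtain ⟨Y, hYA, hYcard, hYcov⟩ := ruzsa_covering_add hTne hAT
  have hY : ∀ a ∈ A, ∃ y ∈ Y, a - y ∈ T' := by
    intro a ha
    obtain ⟨y, hy, z, hz, rfl⟩ := mem_add.1 (hYcov ha)
    exact ⟨y, hy, by rw [hT']; simpa using hz⟩
  have hnum : 2 * L ≤ (n : ℝ) ^ (8 * d + 2) := by
    have := numerics hK1 hn1
    rw [← hP] at this
    rw [hL]; linarith
  have h2L : 1 ≤ 2 * L := by
    rw [hL]
    have : (1 : ℝ) ≤ K * P := by nlinarith
    nlinarith
  have hlogn : 0 < Real.log n := Real.log_pos (by linarith)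
  have hlogL : Real.log (2 * L) ≤ (8 * d + 2) * Real.log n := by
    have := Real.log_le_log (by linarith) hnum
    rw [Real.log_pow] at this
    push_cast at this
    exact this
  have hkn : Real.log (2 * L) ≤ (n : ℝ) ^ 4 := by
    have h1 : Real.log n ≤ n := by
      have := Real.log_le_sub_one_of_pos (show (0 : ℝ) < n by linarith)
      linarith
    have h2 : (8 * (d : ℝ) + 2) ≤ 4 * n := by nlinarith
    calc Real.log (2 * L) ≤ (8 * d + 2) * Real.log n := hlogL
      _ ≤ (4 * n) * n := mul_le_mul h2 h1 hlogn.le (by positivity)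
      _ = 4 * (n : ℝ) ^ 2 := by ring
      _ ≤ (n : ℝ) ^ 2 * (n : ℝ) ^ 2 := by
          apply mul_le_mul_of_nonneg_right _ (by positivity)
          nlinarith
      _ = (n : ℝ) ^ 4 := by ring
  obtain ⟨r, C, ψ, H, W, hr, hC, hH, hvol, hW, hcov⟩ :=
    iterated' (k := 4) (n := n) (by norm_num) hn2' hT'ne hA hsmL
      (show (1 : ℝ) ≤ 2 * K by linarith) hM hY (by exact_mod_cast hkn)
  refine ⟨r, C, ψ, H, W, ?_, hC, hH, hvol, ?_, hcov⟩
  · have h1 : Real.log (2 * L) / Real.log n ≤ 8 * d + 2 := by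
      rw [div_le_iff₀ hlogn]; exact hlogL
    have h2 : (r : ℝ) ≤ 3360 * (d + 1) := by linarith
    exact_mod_cast h2
  · have h3 : (1 : ℝ) ≤ 2 * L := h2L
    have hY' : (Y.card : ℝ) * (2 * K) ≤ (2 * L) ^ 4 := by
      have h4 : (Y.card : ℝ) * (2 * K) ≤ (K ^ 3 * P) * (2 * K) :=
        mul_le_mul_of_nonneg_right hYcard (by linarith)
      have h5 : (K ^ 3 * P) * (2 * K) ≤ (2 * L) ^ 4 := by
        rw [hL]
        have h6 : (2 * (2 * K * P)) ^ 4 = 256 * K ^ 4 * P ^ 4 := by ring
        have h7 : P ≤ P ^ 4 := le_self_pow₀ hP1 (by norm_num)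
        have h8 : (0 : ℝ) ≤ K ^ 4 := by positivity
        rw [h6]
        nlinarith [mul_le_mul_of_nonneg_left h7 h8]
      exact h4.trans h5
    calc (W.card : ℝ) ≤ Y.card * (2 * K) * (2 * L) ^ (86000 * 4) := hW
      _ ≤ (2 * L) ^ 4 * (2 * L) ^ (86000 * 4) := mul_le_mul_of_nonneg_right hY' (by positivity)
      _ = (2 * L) ^ 344004 := by rw [← pow_add]
      _ ≤ ((n : ℝ) ^ (8 * d + 2)) ^ 344004 := pow_le_pow_left₀ (by linarith) hnum _
      _ = (n : ℝ) ^ ((8 * d + 2) * 344004) := by rw [← pow_mul]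
      _ ≤ (n : ℝ) ^ (2752032 * (d + 1)) := pow_le_pow_right₀ (by linarith) (by omega)
      _ ≤ _ := pow_le_pow_left₀ (by linarith) hn2 _

end Pool.Agent.H83.VC
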